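import Pool.Agent.H776R2.Om.Lower
import Pool.Agent.H776R2.Om.FinM

/-!
The weights `ell ω k` of the Grigorchuk group `G_ω` are at most `3 λ^k`, for every sequence `ω`.
-/

set_option autoImplicit false

namespace Pool.Agent.H342_Gap

open Pool.Agent.Results.MP_03d093_al.SphereBall Pool.Agent.H776R2.Grig Pool.Agent.H776R2.Om

theorem lam_inv_eq : (lam - 1) / 2 * lam = 2 / lam + 1 := by
  have h := lam_eq
  have hp := lam_pos
  field_simp
  nlinarith

theorem step_ineq (x y z X Y Z K : ℝ) (hx : 0 ≤ x) (hy : 0 ≤ y) (hz : 0 ≤ z)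
    (h1 : x ≤ y + z) (h2 : y ≤ x + z) (h3 : z ≤ x + y)
    (hK : ∀ u v w : ℝ, (u = x ∧ v = y ∧ w = z) ∨ (u = x ∧ v = z ∧ w = y) ∨
      (u = y ∧ v = x ∧ w = z) ∨ (u = y ∧ v = z ∧ w = x) ∨
      (u = z ∧ v = x ∧ w = y) ∨ (u = z ∧ v = y ∧ w = x) →
      1 / lam * u + (lam - 1) / 2 * v + w ≤ K)
    (hX : X = x + y + z) (hY : Y = 2 * y) (hZ : Z = 2 * z) :
    ∀ u v w : ℝ, (u = X ∧ v = Y ∧ w = Z) ∨ (u = X ∧ v = Z ∧ w = Y) ∨
      (u = Y ∧ v = X ∧ w = Z) ∨ (u = Y ∧ v = Z ∧ w = X) ∨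
      (u = Z ∧ v = X ∧ w = Y) ∨ (u = Z ∧ v = Y ∧ w = X) →
      1 / lam * u + (lam - 1) / 2 * v + w ≤ lam * K := by
  have hp := lam_pos
  have hg := lam_gt
  have hl := lam_lt
  have e1 : (lam - 1) / 2 * lam = 2 / lam + 1 := lam_inv_eq
  have a1 : lam * (1 / lam) = 1 := by field_simp
  have ai : 1 / lam ≤ 1 := by rw [div_le_one hp]; linarith
  have a0 : 0 < 1 / lam := by positivity
  have e2 : 2 / lam = 2 * (1 / lam) := by ring
  -- the two main inequalities
  have m1 : 1 / lam * Y + (lam - 1) / 2 * Z + X ≤ lam * K := by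
    have := hK x y z (by tauto)
    have h' := hK x y z (by tauto)
    subst hX hY hZ
    have k1 := mul_le_mul_of_nonneg_left h' hp.le
    have : 1 / lam * (2 * y) + (lam - 1) / 2 * (2 * z) + (x + y + z) =
        lam * (1 / lam * x + (lam - 1) / 2 * y + z) := by
      have : lam * (1 / lam * x + (lam - 1) / 2 * y + z) =
        (lam * (1 / lam)) * x + ((lam - 1) / 2 * lam) * y + lam * z := by ring
      rw [this, a1, e1, e2]
      ring
    linarith
  have m2 : 1 / lam * Z + (lam - 1) / 2 * Y + X ≤ lam * K := by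
    have h' := hK x z y (by tauto)
    subst hX hY hZ
    have k1 := mul_le_mul_of_nonneg_left h' hp.le
    have : 1 / lam * (2 * z) + (lam - 1) / 2 * (2 * y) + (x + y + z) =
        lam * (1 / lam * x + (lam - 1) / 2 * z + y) := by
      have : lam * (1 / lam * x + (lam - 1) / 2 * z + y) =
        (lam * (1 / lam)) * x + ((lam - 1) / 2 * lam) * z + lam * y := by ring
      rw [this, a1, e1, e2]
      ring
    linarith
  have b2 : (lam - 1) / 2 ≤ 1 := by linarith
  have sY : 0 ≤ X - Y := by subst hX hY; linarith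
  have sZ : 0 ≤ X - Z := by subst hX hZ; linarith
  have p1 : 0 ≤ (1 - 1 / lam) * (X - Y) := mul_nonneg (by linarith) sY
  have p2 : 0 ≤ (1 - 1 / lam) * (X - Z) := mul_nonneg (by linarith) sZ
  have p3 : 0 ≤ (1 - (lam - 1) / 2) * (X - Y) := mul_nonneg (by linarith) sY
  have p4 : 0 ≤ (1 - (lam - 1) / 2) * (X - Z) := mul_nonneg (by linarith) sZ
  intro u v w h
  rcases h with ⟨rfl, rfl, rfl⟩ | ⟨rfl, rfl, rfl⟩ | ⟨rfl, rfl, rfl⟩ | ⟨rfl, rfl, rfl⟩ |
    ⟨rfl, rfl, rfl⟩ | ⟨rfl, rfl, rfl⟩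
  · nlinarith
  · nlinarith
  · nlinarith
  · nlinarith
  · nlinarith
  · nlinarith

/-- all six weighted sums of the three weights are at most `3 λ^k` -/
theorem weights_le (ω : Om) (k : ℕ) : ∀ u v w : ℝ,
    (u = nn ω k .b ∧ v = nn ω k .c ∧ w = nn ω k .d) ∨
    (u = nn ω k .b ∧ v = nn ω k .d ∧ w = nn ω k .c) ∨
    (u = nn ω k .c ∧ v = nn ω k .b ∧ w = nn ω k .d) ∨
    (u = nn ω k .c ∧ v = nn ω k .d ∧ w = nn ω k .b) ∨
    (u = nn ω k .d ∧ v = nn ω k .b ∧ w = nn ω k .c) ∨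
    (u = nn ω k .d ∧ v = nn ω k .c ∧ w = nn ω k .b) →
      1 / lam * u + (lam - 1) / 2 * v + w ≤ 3 * lam ^ k := by
  induction k with
  | zero =>
    have hp := lam_pos
    have hl := lam_lt
    have hg := lam_gt
    have ai : 1 / lam ≤ 1 := by rw [div_le_one hp]; linarith
    intro u v w h
    simp only [nn, Nat.cast_one] at h
    have : u = 1 ∧ v = 1 ∧ w = 1 := by tauto
    obtain ⟨rfl, rfl, rfl⟩ := this
    linarith
  | succ k ih =>
    obtain ⟨h1, h2, h3⟩ := M_tri ω k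
    have h1' : (nn ω k .b : ℝ) ≤ nn ω k .c + nn ω k .d := by exact_mod_cast h1
    have h2' : (nn ω k .c : ℝ) ≤ nn ω k .b + nn ω k .d := by exact_mod_cast h2
    have h3' : (nn ω k .d : ℝ) ≤ nn ω k .b + nn ω k .c := by exact_mod_cast h3
    have e : 3 * lam ^ (k + 1) = lam * (3 * lam ^ k) := by ring
    rw [e]
    cases hk : kil (ω k)
    · -- killed b
      have s := step_ineq (nn ω k .b) (nn ω k .c) (nn ω k .d) (nn ω (k + 1) .b)
        (nn ω (k + 1) .c) (nn ω (k + 1) .d) (3 * lam ^ k) (by positivity) (by positivity)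
        (by positivity) h1' h2' h3' ih
        (by simp [nn, hk]) (by simp [nn, hk]) (by simp [nn, hk])
      exact s
    · have s := step_ineq (nn ω k .c) (nn ω k .b) (nn ω k .d) (nn ω (k + 1) .c)
        (nn ω (k + 1) .b) (nn ω (k + 1) .d) (3 * lam ^ k) (by positivity) (by positivity)
        (by positivity) h2' h1' (by linarith)
        (fun u v w h => ih u v w (by tauto))
        (by simp [nn, hk]; ring) (by simp [nn, hk]) (by simp [nn, hk])
      exact fun u v w h => s u v w (by tauto)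
    · have s := step_ineq (nn ω k .d) (nn ω k .b) (nn ω k .c) (nn ω (k + 1) .d)
        (nn ω (k + 1) .b) (nn ω (k + 1) .c) (3 * lam ^ k) (by positivity) (by positivity)
        (by positivity) h3' (by linarith) (by linarith)
        (fun u v w h => ih u v w (by tauto))
        (by simp [nn, hk]; ring) (by simp [nn, hk]) (by simp [nn, hk])
      exact fun u v w h => s u v w (by tauto)

/-- **`ell ω k ≤ 3 λ^k` for every `ω`**; for `ω = 012012...` this is sharp up to the constant. -/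
theorem ell_le (ω : Om) (k : ℕ) : (ell ω k : ℝ) ≤ 3 * lam ^ k := by
  have hp := lam_pos
  have hg := lam_gt
  have key : ∀ u v w : ℝ, 0 ≤ u → 0 ≤ v → 1 / lam * u + (lam - 1) / 2 * v + w ≤ 3 * lam ^ k →
      w ≤ 3 * lam ^ k := by
    intro u v w hu hv h
    have a0 : 0 ≤ 1 / lam * u := by positivity
    have a1 : 0 ≤ (lam - 1) / 2 * v := mul_nonneg (by linarith) hv
    linarith
  have hb : (nn ω k .b : ℝ) ≤ 3 * lam ^ k :=
    key (nn ω k .c) (nn ω k .d) _ (by positivity) (by positivity)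
      (weights_le ω k _ _ _ (by tauto))
  have hc : (nn ω k .c : ℝ) ≤ 3 * lam ^ k :=
    key (nn ω k .b) (nn ω k .d) _ (by positivity) (by positivity)
      (weights_le ω k _ _ _ (by tauto))
  have hd : (nn ω k .d : ℝ) ≤ 3 * lam ^ k :=
    key (nn ω k .b) (nn ω k .c) _ (by positivity) (by positivity)
      (weights_le ω k _ _ _ (by tauto))
  unfold ell
  push_cast
  exact max_le hb (max_le hc hd)

theorem lam_pow_grow {r : ℕ} (hr : 1 ≤ r) : 8 * (2 : ℝ) ^ (12 * r) ≤ lam ^ (12 * r) := by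
  have hg := lam_gt
  have h12 : 8 * (2 : ℝ) ^ 12 ≤ lam ^ 12 := by
    have h : (2.465 : ℝ) ^ 12 ≤ lam ^ 12 := pow_le_pow_left₀ (by norm_num) hg.le 12
    refine le_trans ?_ h
    norm_num
  rw [pow_mul, pow_mul]
  obtain ⟨s, rfl⟩ : ∃ s, r = s + 1 := ⟨r - 1, by omega⟩
  have h2 : ((2 : ℝ) ^ 12) ^ s ≤ (lam ^ 12) ^ s := by
    apply pow_le_pow_left₀ (by positivity)
    have : (0 : ℝ) < 2 ^ 12 := by positivity
    linarith
  rw [pow_succ, pow_succ]
  calc 8 * (((2 : ℝ) ^ 12) ^ s * 2 ^ 12) = ((2 : ℝ) ^ 12) ^ s * (8 * 2 ^ 12) := by ring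
    _ ≤ (lam ^ 12) ^ s * lam ^ 12 := by
      apply mul_le_mul h2 h12 (by positivity) (by positivity)

end Pool.Agent.H342_Gap
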