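import Pool.Agent.TMGrowth.OmLow
import Pool.Agent.H342_Gap.EllLe

/-!
If the constant runs of `ω` are bounded then all functions of the first `k` letters are realised by
words of length at most `A λ^k`; hence `2^(2^k) ≤ ballO ω ⌊A λ^k⌋`.
-/

set_option autoImplicit false

namespace Pool.Agent.H342_Gap

open Pool.Agent.Results.MP_03d093_al.SphereBall Pool.Agent.H776R2.Grig Pool.Agent.H776R2.Om
open Pool.Agent.TMGrowth.OmLow

/-- in every window of length `r` the sequence changes its value -/
def BR (r : ℕ) (ω : Om) : Prop := ∀ n : ℕ, ∃ i, n ≤ i ∧ i < n + r ∧ ω i ≠ ω (i + 1)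

theorem BR.pos {r : ℕ} {ω : Om} (h : BR r ω) : 1 ≤ r := by
  obtain ⟨i, h1, h2, -⟩ := h 0
  omega

theorem realizeb {r : ℕ} {ω : Om} (h : BR r ω) : ∃ A : ℝ, 0 < A ∧ ∀ (k j : ℕ),
    ω j ≠ ω (j + 1) → k + r + 2 ≤ j → j ≤ k + 2 * r + 4 → ∀ p : List Bool → Bool,
    ∃ w : List Lt, (w.length : ℝ) ≤ A * lam ^ k ∧
      Lab (j + 2) (fun u => p (u.take k)) (evo ω w) := by
  have hr := h.pos
  have hlp := lam_pos
  have hlg := lam_gt
  have hl1 : (1 : ℝ) ≤ lam := by linarith
  choose Sc hS using fun s => specialo ω s
  set S : ℕ := ∑ s ∈ Finset.range (14 * r + 5), Sc s with hSdef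
  have hSle : ∀ s, s < 14 * r + 5 → Sc s ≤ S := fun s hs =>
    Finset.single_le_sum (f := Sc) (fun _ _ => Nat.zero_le _) (Finset.mem_range.2 hs)
  -- lengths of the special words in terms of `λ`
  have hSl : ∀ (s m : ℕ) (w : List Lt), s < 14 * r + 5 → w.length ≤ Sc s * ell ω m →
      (w.length : ℝ) ≤ 3 * S * lam ^ m := by
    intro s m w hs hw
    have h1 : (w.length : ℝ) ≤ (Sc s : ℝ) * (ell ω m : ℝ) := by exact_mod_cast hw
    have h2 : (Sc s : ℝ) ≤ S := by exact_mod_cast hSle s hs
    have h3 := ell_le ω m
    have h4 : (0 : ℝ) ≤ (Sc s : ℝ) := by positivity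
    calc (w.length : ℝ) ≤ (Sc s : ℝ) * (ell ω m : ℝ) := h1
      _ ≤ S * (3 * lam ^ m) := by
        apply mul_le_mul h2 h3 (by positivity) (by positivity)
      _ = 3 * S * lam ^ m := by ring
  refine ⟨6 * S + 1, by positivity, ?_⟩
  set A : ℝ := 6 * S + 1 with hA
  have hS0 : (0 : ℝ) ≤ S := by positivity
  intro k
  induction k using Nat.strong_induction_on with
  | _ k ih =>
    intro j hj hj1 hj2 p
    by_cases hk : k < 12 * r
    · obtain ⟨w, hw, hl⟩ := hS j (fun y => p (y.take k)) 0 (by simpa using hj)
      refine ⟨w, ?_, ?_⟩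
      · have h1 := hSl j 0 w (by omega) hw
        rw [pow_zero, mul_one] at h1
        have h2 : (1 : ℝ) ≤ lam ^ k := one_le_pow₀ hl1
        nlinarith
      · rw [zero_add] at hl
        refine lab_congr ?_ hl
        intro u _
        simp only [List.drop_zero, List.take_take]
        rw [min_eq_left (by omega)]
    · obtain ⟨m, rfl⟩ : ∃ m, k = m + 12 * r := ⟨k - 12 * r, by omega⟩
      obtain ⟨ja, hja1, hja2, hja⟩ := h (m + r + 2)
      obtain ⟨jb, hjb1, hjb2, hjb⟩ := h (m + 12 * r)
      have es1 : m + (jb - m) = jb := by omega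
      have es2 : m + (j - m) = j := by omega
      obtain ⟨ws, hws, hls⟩ := hS (jb - m) (fun y => y.getD (ja + 2 - m) false) m
        (by rw [es1]; exact hjb)
      rw [es1] at hls
      have hws' := hSl _ m ws (by omega) hws
      set X : ℕ := ⌊(4 * A + 18 * S) * lam ^ m⌋₊ with hX
      have key : ∀ t : List Bool, t.length = 12 * r → ∀ q : List Bool → Bool, ∃ w : List Lt,
          w.length ≤ X ∧
          Lab (j + 2) (fun u => decide ((u.drop m).take (12 * r) = t) && q (u.take m))
            (evo ω w) := by
        intro t ht q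
        obtain ⟨we, hwe, hle⟩ := ih m (by omega) ja hja (by omega) (by omega) q
        obtain ⟨wt, hwt, hlt⟩ := hS (j - m)
          (fun y => decide (y.take (12 * r) = t) && y.getD (jb + 2 - m) false) m
          (by rw [es2]; exact hj)
        rw [es2] at hlt
        have hwt' := hSl _ m wt (by omega) hwt
        -- first commutator
        have hs' : Lab (jb + 2) (fun u => (fun _ : List Bool => true) (u.take (ja + 2)) &&
            u.getD (ja + 2) false) (evo ω ws) := by
          refine lab_congr ?_ hls
          intro u hu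
          simp only [Bool.true_and]
          exact R_getD u m _ (ja + 2) (by omega) (by omega)
        have c1 := lab_commo ω (j := ja + 2) (n := jb + 2) (by omega)
          (q := fun v => q (v.take m)) (μ := fun _ => true) hle hs'
        have c1' : Lab (jb + 2) (fun u => q (u.take m))
            (evo ω (we ++ ws ++ we.reverse ++ ws.reverse)) := by
          refine lab_congr ?_ c1
          intro u hu
          simp only [Bool.true_and, List.take_take]
          rw [min_eq_left (by omega)]
        -- second commutator
        have ht' : Lab (j + 2) (fun u =>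
            (fun v : List Bool => decide ((v.drop m).take (12 * r) = t)) (u.take (jb + 2))
            && u.getD (jb + 2) false) (evo ω wt) := by
          refine lab_congr ?_ hlt
          intro u hu
          have e1 : ((u.drop m).take (j - m + 1)).take (12 * r) =
              ((u.take (jb + 2)).drop m).take (12 * r) := by
            rw [List.take_take, List.drop_take, List.take_take]
            congr 1
            omega
          have e2 := R_getD u m (j - m + 1) (jb + 2) (by omega) (by omega)
          simp only [e1, e2]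
        have c2 := lab_commo ω (j := jb + 2) (n := j + 2) (by omega) (q := fun v => q (v.take m))
          (μ := fun v => decide ((v.drop m).take (12 * r) = t)) c1' ht'
        refine ⟨_, ?_, lab_congr ?_ c2⟩
        · rw [hX]
          apply Nat.le_floor
          simp only [List.length_append, List.length_reverse]
          push_cast
          have : (0 : ℝ) < lam ^ m := by positivity
          nlinarith
        · intro u hu
          have e1 : ((u.take (jb + 2)).drop m).take (12 * r) = (u.drop m).take (12 * r) := by
            rw [List.drop_take, List.take_take]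
            congr 1
            omega
          have e2 : (u.take (jb + 2)).take m = u.take m := by
            rw [List.take_take]
            congr 1
            omega
          simp only [e1, e2]
      obtain ⟨w, hw, hl⟩ := R_split (ω := ω) (n := j + 2) (m := m) (r := 12 * r) (by omega)
        X key p
      refine ⟨w, ?_, hl⟩
      have h8 := lam_pow_grow hr
      have hm0 : (0 : ℝ) < lam ^ m := by positivity
      have hXle : (X : ℝ) ≤ (4 * A + 18 * S) * lam ^ m := by
        rw [hX]
        exact Nat.floor_le (by positivity)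
      calc (w.length : ℝ) ≤ ((2 ^ (12 * r) * X : ℕ) : ℝ) := by exact_mod_cast hw
        _ = 2 ^ (12 * r) * (X : ℝ) := by push_cast; ring
        _ ≤ 2 ^ (12 * r) * ((4 * A + 18 * S) * lam ^ m) := by gcongr
        _ ≤ 2 ^ (12 * r) * ((8 * A) * lam ^ m) := by
            gcongr
            rw [hA]
            linarith
        _ = A * (8 * 2 ^ (12 * r)) * lam ^ m := by ring
        _ ≤ A * lam ^ (12 * r) * lam ^ m := by gcongr
        _ = A * lam ^ (m + 12 * r) := by rw [pow_add]; ring

theorem ballO_lower_lam {r : ℕ} {ω : Om} (h : BR r ω) : ∃ A : ℝ, 0 < A ∧ ∀ k : ℕ,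
    2 ^ 2 ^ k ≤ ballO ω ⌊A * lam ^ k⌋₊ := by
  obtain ⟨A, hA0, hA⟩ := realizeb h
  refine ⟨A, hA0, fun k => ?_⟩
  obtain ⟨j, hj1, hj2, hj3⟩ := h (k + r + 2)
  choose w hw1 hw2 using fun f : List.Vector Bool k → Bool =>
    hA k j hj3 hj1 (by omega) (L_ext f)
  have hlen : ∀ f, lenO ω (evG ω (w f)) ≤ ⌊A * lam ^ k⌋₊ := fun f =>
    (lenO_le ω (w f)).trans (Nat.le_floor (hw1 f))
  let Φ : (List.Vector Bool k → Bool) → {g : Gom ω // lenO ω g ≤ ⌊A * lam ^ k⌋₊} :=
    fun f => ⟨evG ω (w f), hlen f⟩
  have hinj : Function.Injective Φ := by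
    intro f f' hff
    have h1 : evo ω (w f) = evo ω (w f') := by
      have h2 : evG ω (w f) = evG ω (w f') := congrArg Subtype.val hff
      exact congrArg Subtype.val h2
    funext v
    have h3 := hw2 f
    rw [h1] at h3
    have h4 := L_unique (by omega) h3 (hw2 f') v.1 v.2
    rwa [L_ext_apply, L_ext_apply] at h4
  have h5 := Nat.card_le_card_of_injective Φ hinj
  have h6 : Nat.card (List.Vector Bool k → Bool) = 2 ^ 2 ^ k := by
    rw [Nat.card_eq_fintype_card, Fintype.card_fun, card_vector, Fintype.card_bool]
  rw [h6] at h5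
  exact h5

end Pool.Agent.H342_Gap
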