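import Pool.Agent.H342_Gap.Basic
import Pool.Agent.H342_Gap.Realize
import Pool.Agent.Results.MP_6985d1_al.ExactGrowth

/-!
The growth functions of the groups `G_ω` in terms of `gro`, and the first Grigorchuk group as `G_ω`,
`ω = 012012...`.
-/

set_option autoImplicit false

namespace Pool.Agent.H342_Gap

open Pool.Agent.Results.MP_03d093_al.SphereBall Pool.Agent.H776R2.Grig Pool.Agent.H776R2.Om

/-- the generating set `{a, b_ω, c_ω, d_ω}` of `G_ω` -/
def SO (ω : Om) : Set (Gom ω) :=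
  {x | (x : P) = a ∨ (x : P) = xx ω .b ∨ (x : P) = xx ω .c ∨ (x : P) = xx ω .d}

theorem SO_eq (ω : Om) : SO ω = (fun s : Lt => (⟨gno ω s, A_gno_mem ω s⟩ : Gom ω)) '' Set.univ := by
  ext x
  simp only [SO, Set.mem_setOf_eq, Set.image_univ, Set.mem_range]
  constructor
  · rintro (h | h | h | h)
    · exact ⟨.A, Subtype.ext h.symm⟩
    · exact ⟨.B, Subtype.ext h.symm⟩
    · exact ⟨.C, Subtype.ext h.symm⟩
    · exact ⟨.D, Subtype.ext h.symm⟩
  · rintro ⟨s, rfl⟩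
    cases s <;> simp [gno]

theorem SO_finite (ω : Om) : (SO ω).Finite := by
  rw [SO_eq]
  exact Set.toFinite _

theorem SO_inv {ω : Om} {x : Gom ω} (h : x⁻¹ ∈ SO ω) : x ∈ SO ω := by
  rw [SO_eq] at h ⊢
  obtain ⟨s, -, hs⟩ := h
  refine ⟨s, trivial, ?_⟩
  have hs' : (⟨gno ω s, A_gno_mem ω s⟩ : Gom ω) = x⁻¹ := hs
  have h1 : x = (⟨gno ω s, A_gno_mem ω s⟩ : Gom ω)⁻¹ := by
    rw [hs', inv_inv]
  rw [h1]
  exact Subtype.ext (gno_inv ω s).symm

theorem mem_Ball_iff (ω : Om) (g : Gom ω) (n : ℕ) : g ∈ Ball (SO ω) n ↔ lenO ω g ≤ n := by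
  constructor
  · rintro ⟨l, hl, hS, rfl⟩
    refine le_trans ?_ hl
    unfold lenO
    apply Nat.sInf_le
    refine ⟨l.map Subtype.val, by simp, ?_, ?_⟩
    · intro s hs
      obtain ⟨x, hx, rfl⟩ := List.mem_map.1 hs
      rcases hS x hx with h | h
      · exact h
      · exact SO_inv h
    · have := map_list_prod (Gom ω).subtype l
      simpa using this.symm
  · intro h
    obtain ⟨w, hw, hg⟩ := exists_geodo ω g
    refine ⟨w.map (fun s => (⟨gno ω s, A_gno_mem ω s⟩ : Gom ω)), ?_, ?_, ?_⟩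
    · rw [List.length_map, hw]
      exact h
    · intro x hx
      obtain ⟨s, -, rfl⟩ := List.mem_map.1 hx
      left
      rw [SO_eq]
      exact ⟨s, trivial, rfl⟩
    · rw [← hg]
      apply Subtype.ext
      have := map_list_prod (Gom ω).subtype (w.map (fun s => (⟨gno ω s, A_gno_mem ω s⟩ : Gom ω)))
      rw [List.map_map] at this
      exact this

theorem SO_gen (ω : Om) : Subgroup.closure (SO ω) = ⊤ := by
  rw [eq_top_iff]
  intro g _
  obtain ⟨l, -, hS, rfl⟩ := (mem_Ball_iff ω g (lenO ω g)).2 le_rfl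
  apply Subgroup.list_prod_mem
  intro x hx
  rcases hS x hx with h | h
  · exact Subgroup.subset_closure h
  · exact Subgroup.subset_closure (SO_inv h)

theorem gro_SO (ω : Om) (n : ℕ) : gro (SO ω) n = ballO ω n := by
  unfold gro ballO
  have : Ball (SO ω) n = {g : Gom ω | lenO ω g ≤ n} := by
    ext g
    exact mem_Ball_iff ω g n
  rw [this]
  rfl

/-- `final_lower` of `Grig/Fin1.lean` for an arbitrary monotone function -/
theorem lower_of (b : ℕ → ℕ) (hb : Monotone b) (h0 : 1 ≤ b 0)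
    (h : ∃ A : ℝ, 0 < A ∧ ∀ k : ℕ, 2 ^ (2 ^ k) ≤ b ⌊A * lam ^ k⌋₊) :
    Dom (expF alpha) b := by
  obtain ⟨A, hA, h⟩ := h
  have hl2 : 0 < Real.log 2 := Real.log_pos (by norm_num)
  have hl2' : Real.log 2 < 1 := by
    have := Real.log_two_lt_d9
    linarith
  set C1 : ℝ := (2 / Real.log 2) ^ (1 / alpha) with hC1
  have hC1p : 0 < C1 := Real.rpow_pos_of_pos (by positivity) _
  refine ⟨⌈A * C1⌉₊ + 1, Nat.le_add_left _ _, fun n => ?_⟩
  rcases Nat.eq_zero_or_pos n with hn | hn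
  · subst hn
    rw [expF_zero H_alpha_pos, mul_zero]
    exact h0
  have hn1 : (1 : ℝ) ≤ n := by exact_mod_cast hn
  have ht : (1 : ℝ) ≤ (n : ℝ) ^ alpha := Real.one_le_rpow hn1 H_alpha_pos.le
  set t : ℝ := (n : ℝ) ^ alpha with htd
  have hx : (1 : ℝ) ≤ t / Real.log 2 := by
    rw [le_div_iff₀ hl2]
    linarith
  obtain ⟨m, hm1, hm2⟩ := exists_nat_pow_near hx (by norm_num : (1 : ℝ) < 2)
  have h1 : t ≤ 2 ^ (m + 1) * Real.log 2 := by
    rw [div_lt_iff₀ hl2] at hm2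
    exact hm2.le
  have h2 : (2 : ℝ) ^ (m + 1) ≤ 2 / Real.log 2 * t := by
    have : (2 : ℝ) ^ (m + 1) = 2 * 2 ^ m := by ring
    rw [this]
    calc 2 * (2 : ℝ) ^ m ≤ 2 * (t / Real.log 2) := by linarith
      _ = 2 / Real.log 2 * t := by ring
  have h3 : lam ^ (m + 1) ≤ C1 * n := by
    have hp : 0 < lam ^ (m + 1) := pow_pos lam_pos _
    have hq : 0 < C1 * n := by positivity
    rw [← Real.rpow_le_rpow_iff hp.le hq.le H_alpha_pos, H_pow_alpha,
      Real.mul_rpow hC1p.le (by positivity), hC1, H_root _ (by positivity)]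
    exact h2
  have h4 : expF alpha n ≤ 2 ^ (2 ^ (m + 1)) := by
    unfold expF
    have : Real.exp t ≤ ((2 ^ (2 ^ (m + 1)) : ℕ) : ℝ) := by
      have e : ((2 ^ (2 ^ (m + 1)) : ℕ) : ℝ) = Real.exp (2 ^ (m + 1) * Real.log 2) := by
        rw [mul_comm, Real.exp_mul, Real.exp_log (by norm_num)]
        push_cast
        rw [← Real.rpow_natCast]
        push_cast
        rfl
      rw [e]
      exact Real.exp_le_exp.2 h1
    exact Nat.floor_le_of_le this
  refine (h4.trans (h (m + 1))).trans (hb ?_)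
  refine Nat.floor_le_of_le ?_
  push_cast
  calc A * lam ^ (m + 1) ≤ A * (C1 * n) := by gcongr
    _ = A * C1 * n := by ring
    _ ≤ (⌈A * C1⌉₊ + 1) * n := by
      gcongr
      have := Nat.le_ceil (A * C1)
      linarith

/-! The first Grigorchuk group. -/

/-- the sequence `012012...` -/
def om0 : Om := fun n => ⟨n % 3, Nat.mod_lt _ (by norm_num)⟩

theorem om_phases : (om0 0 = 0 ∧ om0 1 = 1 ∧ om0 2 = 2) ∧ sh (sh (sh om0)) = om0 := by
  refine ⟨⟨rfl, rfl, rfl⟩, ?_⟩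
  funext n
  simp only [sh, om0]
  apply Fin.ext
  simp only
  omega

theorem gens_eq (w : List Bool) :
    (xFun .b om0 w = bFun w ∧ xFun .c om0 w = cFun w ∧ xFun .d om0 w = dFun w) ∧
    (xFun .b (sh om0) w = cFun w ∧ xFun .c (sh om0) w = dFun w ∧ xFun .d (sh om0) w = bFun w) ∧
    (xFun .b (sh (sh om0)) w = dFun w ∧ xFun .c (sh (sh om0)) w = bFun w ∧
      xFun .d (sh (sh om0)) w = cFun w) := by
  have h0 : om0 0 = 0 := rfl
  have h1 : sh om0 0 = 1 := rfl
  have h2 : sh (sh om0) 0 = 2 := rfl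
  have h3 := om_phases.2
  induction w with
  | nil => simp [xFun, bFun, cFun, dFun]
  | cons x w ih =>
    obtain ⟨⟨a1, a2, a3⟩, ⟨b1, b2, b3⟩, ⟨c1, c2, c3⟩⟩ := ih
    cases x
    · simp [xFun, bFun, cFun, dFun, h0, h1, h2, col]
    · simp only [xFun, bFun, cFun, dFun, h3, a1, a2, a3, b1, b2, b3, c1, c2, c3]
      simp

theorem xx_om0 : xx om0 .b = b ∧ xx om0 .c = c ∧ xx om0 .d = d := by
  refine ⟨?_, ?_, ?_⟩
  · ext1 w
    exact (gens_eq w).1.1
  · ext1 w
    exact (gens_eq w).1.2.1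
  · ext1 w
    exact (gens_eq w).1.2.2

/-- `G_ω` for `ω = 012012...` is the first Grigorchuk group -/
theorem Gom_om0 : Gom om0 = G := by
  unfold Gom G
  rw [xx_om0.1, xx_om0.2.1, xx_om0.2.2]

theorem ballO_om0 (n : ℕ) : ballO om0 n = ball n := by
  have key : ∀ (H : Subgroup P) (L : P → ℕ), Nat.card {g : H // L g ≤ n} =
      Nat.card {g : P // g ∈ H ∧ L g ≤ n} := by
    intro H L
    apply Nat.card_congr
    exact ⟨fun g => ⟨g.1.1, g.1.2, g.2⟩, fun g => ⟨⟨g.1, g.2.1⟩, g.2.2⟩,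
      fun g => rfl, fun g => rfl⟩
  let L : P → ℕ := fun g => sInf {n : ℕ | ∃ l : List P,
    l.length = n ∧ (∀ s ∈ l, s = a ∨ s = b ∨ s = c ∨ s = d) ∧ l.prod = g}
  have e1 : ballO om0 n = Nat.card {g : Gom om0 // L g ≤ n} := by
    unfold ballO lenO
    rw [xx_om0.1, xx_om0.2.1, xx_om0.2.2]
  have e2 : ball n = Nat.card {g : G // L g ≤ n} := rfl
  rw [e1, e2, key, key, Gom_om0]

theorem gro_om0 : Eqv (gro (SO om0)) (expF alpha) := by
  obtain ⟨-, -, ⟨C1, hC1, h1⟩, ⟨C2, hC2, h2⟩⟩ :=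
    Pool.Agent.Results.MP_6985d1_al.ExactGrowth.result
  refine ⟨⟨C2, hC2, fun n => ?_⟩, ⟨C1, hC1, fun n => ?_⟩⟩
  · rw [gro_SO, ballO_om0]
    exact h2 n
  · rw [gro_SO, ballO_om0]
    exact h1 n

theorem lower_BR {r : ℕ} {ω : Om} (h : BR r ω) : Dom (expF alpha) (gro (SO ω)) := by
  have hm : Monotone (ballO ω) := fun _ _ h => ballO_mono ω h
  have := lower_of (ballO ω) hm (ballO_zero ω).ge (ballO_lower_lam h)
  have e : gro (SO ω) = ballO ω := funext (gro_SO ω)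
  rw [e]
  exact this

end Pool.Agent.H342_Gap
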