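import Pool.Agent.H342_Gap.GrigFin

/-!
From the lower bound for the groups `G_ω`, `ω ∈ Q`, to the largest gap exponent relative to the groups
which have such a `G_ω` as a section.
-/

set_option autoImplicit false

namespace Pool.Agent.H342_Gap

open Pool.Agent.Results.MP_03d093_al.SphereBall Pool.Agent.H776R2.Grig Pool.Agent.H776R2.Om

/-- polynomial growth: `f n ≤ (C n) ^ d` for all `n ≥ 1` -/
def PolyG (f : ℕ → ℕ) : Prop := ∃ C d : ℕ, ∀ n : ℕ, 1 ≤ n → f n ≤ (C * n) ^ d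

/-- `β ∈ (0, 1)` is a gap exponent for the finitely generated groups with property `P` -/
def GapExpIn (P : (G : Type) → [Group G] → Prop) (β : ℝ) : Prop :=
  0 < β ∧ β < 1 ∧ ∀ (G : Type) [Group G] (S : Set G), S.Finite → Subgroup.closure S = ⊤ →
    P G → SLess (gro S) (expF β) → PolyG (gro S)

/-- some subgroup of `G` has a homomorphism onto a Grigorchuk group `G_ω` with `Q ω` -/
def SecOf (Q : (ℕ → Fin 3) → Prop) (G : Type) [Group G] : Prop :=
  ∃ ω : ℕ → Fin 3, Q ω ∧ ∃ (K : Subgroup G) (f : K →* Gom ω), Function.Surjective f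

theorem SecOf_self {Q : (ℕ → Fin 3) → Prop} {ω : ℕ → Fin 3} (h : Q ω) : SecOf Q (Gom ω) :=
  ⟨ω, h, ⊤, (⊤ : Subgroup (Gom ω)).subtype, fun x => ⟨⟨x, trivial⟩, rfl⟩⟩

theorem assembly (Q : (ℕ → Fin 3) → Prop) (hQ0 : Q om0)
    (hQ : ∀ ω, Q ω → Dom (expF alpha) (gro (SO ω))) :
    (∀ (G : Type) [Group G] (S : Set G), S.Finite → Subgroup.closure S = ⊤ → SecOf Q G →
      Dom (expF alpha) (gro S)) ∧
    (∃ (G : Type) (_ : Group G) (S : Set G), S.Finite ∧ Subgroup.closure S = ⊤ ∧ SecOf Q G ∧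
      Eqv (gro S) (expF alpha)) ∧
    IsGreatest {β : ℝ | GapExpIn (fun G _ => SecOf Q G) β} alpha := by
  have h1 : ∀ (G : Type) [Group G] (S : Set G), S.Finite → Subgroup.closure S = ⊤ → SecOf Q G →
      Dom (expF alpha) (gro S) := by
    rintro G _ S hS hgen ⟨ω, hω, K, f, hf⟩
    exact (hQ ω hω).trans (Dom_section hS hgen K f hf (SO_finite ω))
  refine ⟨h1, ⟨Gom om0, inferInstance, SO om0, SO_finite _, SO_gen _, SecOf_self hQ0, gro_om0⟩,
    ⟨⟨H_alpha_pos, ?_, ?_⟩, ?_⟩⟩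
  · have := Pool.Agent.Results.MP_6985d1_al.ExactGrowth.alpha_bounds.2
    linarith
  · intro G _ S hS hgen hG hless
    exact absurd (h1 G S hS hgen hG) hless.not_dom
  · rintro β ⟨hβ0, hβ1, hβ⟩
    by_contra hlt
    push Not at hlt
    have hs : SLess (gro (SO om0)) (expF β) := by
      refine ⟨gro_om0.1.trans (SLess_expF H_alpha_pos hlt).1, fun h => ?_⟩
      exact not_Dom_expF H_alpha_pos hlt (h.2.trans gro_om0.1)
    obtain ⟨C, d, hp⟩ := hβ (Gom om0) (SO om0) (SO_finite _) (SO_gen _) (SecOf_self hQ0) hs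
    obtain ⟨D, hD, h2⟩ := gro_om0.2
    obtain ⟨n, hn1, hn⟩ := expF_not_poly H_alpha_pos (C * D) d
    have h3 := h2 n
    have h4 := hp (D * n) (Nat.mul_pos hD hn1)
    rw [← mul_assoc] at h4
    omega

end Pool.Agent.H342_Gap
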