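import Pool.Agent.H342_Gap.TwoGen

/-!
When is `exp(n^α)` attained, for a gap exponent `α`?
-/

set_option autoImplicit false

namespace Pool.Agent.H342_Gap

/-- `α ∈ (0, 1)` is a gap exponent, in the form with virtually nilpotent groups: every finitely
generated group with growth `≺ exp(n^α)` is virtually nilpotent -/
def GapN (α : ℝ) : Prop := 0 < α ∧ α < 1 ∧ ∀ (G : Type) [Group G] (S : Set G), S.Finite →
  Subgroup.closure S = ⊤ → SLess (gro S) (expF α) → Group.IsVirtuallyNilpotent G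

/-- every finitely generated group with growth `⪯ g` is virtually nilpotent -/
def GapFun (g : ℕ → ℕ) : Prop := ∀ (G : Type) [Group G] (S : Set G), S.Finite →
  Subgroup.closure S = ⊤ → Dom (gro S) g → Group.IsVirtuallyNilpotent G

section TwoGenerated

variable {G : Type} [Group G]

/-- the homomorphism from the free group given by two elements -/
def phi (x y : G) : F2 →* G := FreeGroup.lift ![x, y]

theorem phi_SF (x y : G) : phi x y '' SF = {x, y} := by
  ext z
  constructor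
  · rintro ⟨_, ⟨i, rfl⟩, rfl⟩
    fin_cases i
    · left; simp [phi]
    · right; simp [phi]
  · rintro (rfl | rfl)
    · exact ⟨_, ⟨0, rfl⟩, by simp [phi]⟩
    · exact ⟨_, ⟨1, rfl⟩, by simp [phi]⟩

theorem phi_surjective {x y : G} (h : Subgroup.closure {x, y} = ⊤) :
    Function.Surjective (phi x y) := by
  rw [← MonoidHom.range_eq_top, MonoidHom.range_eq_map, ← SF_gen, MonoidHom.map_closure, phi_SF, h]

theorem gro_phi (x y : G) (n : ℕ) : gro (SN (phi x y).ker) n = gro {x, y} n := by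
  rw [gro_ker, phi_SF]

theorem VN_phi {x y : G} (h : Subgroup.closure {x, y} = ⊤) :
    Group.IsVirtuallyNilpotent (F2 ⧸ (phi x y).ker) → Group.IsVirtuallyNilpotent G :=
  fun h1 => VN.of_surjective (QuotientGroup.kerLift (phi x y))
    (fun z => by
      obtain ⟨w, hw⟩ := phi_surjective h z
      exact ⟨QuotientGroup.mk w, hw⟩) h1

end TwoGenerated

theorem SN_pair (N : Subgroup F2) [N.Normal] :
    SN N = {QuotientGroup.mk' N (FreeGroup.of 0), QuotientGroup.mk' N (FreeGroup.of 1)} := by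
  unfold SN SF
  ext z
  constructor
  · rintro ⟨_, ⟨i, rfl⟩, rfl⟩
    fin_cases i
    · left; rfl
    · right; rfl
  · rintro (rfl | rfl)
    · exact ⟨_, ⟨0, rfl⟩, rfl⟩
    · exact ⟨_, ⟨1, rfl⟩, rfl⟩

/-- the growth of a power -/
theorem pow_expF {α : ℝ} (hα : 0 < α) (k : ℕ) : ∃ E : ℕ, 1 ≤ E ∧ ∀ m : ℕ, 1 ≤ m →
    k * expF α m ^ k ≤ expF α (E * m) := by
  set E : ℕ := ⌈((2 * k : ℝ)) ^ (1 / α)⌉₊ + 1 with hE
  refine ⟨E, by omega, fun m hm => ?_⟩
  have hm1 : (1 : ℝ) ≤ m := by exact_mod_cast hm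
  have hmα : (1 : ℝ) ≤ (m : ℝ) ^ α := Real.one_le_rpow hm1 hα.le
  have h1 : (2 * k : ℝ) ≤ (E : ℝ) ^ α := by
    have h2 : ((2 * k : ℝ)) ^ (1 / α) ≤ E := by
      rw [hE]
      push_cast
      have := Nat.le_ceil (((2 * k : ℝ)) ^ (1 / α))
      linarith
    have h3 : (((2 * k : ℝ)) ^ (1 / α)) ^ α ≤ (E : ℝ) ^ α :=
      Real.rpow_le_rpow (by positivity) h2 hα.le
    rwa [← Real.rpow_mul (by positivity), one_div, inv_mul_cancel₀ hα.ne', Real.rpow_one] at h3
  have h4 : (k : ℝ) ≤ Real.exp k := by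
    have := Real.add_one_le_exp (k : ℝ)
    linarith
  unfold expF
  apply Nat.le_floor
  push_cast
  have h5 : (⌊Real.exp ((m : ℝ) ^ α)⌋₊ : ℝ) ≤ Real.exp ((m : ℝ) ^ α) :=
    Nat.floor_le (Real.exp_pos _).le
  calc (k : ℝ) * (⌊Real.exp ((m : ℝ) ^ α)⌋₊ : ℝ) ^ k
      ≤ Real.exp k * (Real.exp ((m : ℝ) ^ α)) ^ k := by gcongr
    _ = Real.exp (k + k * (m : ℝ) ^ α) := by
      rw [← Real.exp_nat_mul, ← Real.exp_add]
    _ ≤ Real.exp ((E * m : ℝ) ^ α) := by
      apply Real.exp_le_exp.2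
      rw [Real.mul_rpow (by positivity) (by positivity)]
      have hk : (0 : ℝ) ≤ k := by positivity
      nlinarith

/-- continuity of `β ↦ ⌊exp(m^β)⌋` from the right, along a sequence -/
theorem expF_right (α : ℝ) (m : ℕ) (hm : 1 ≤ m) : ∃ δ : ℝ, 0 < δ ∧
    ∀ β : ℝ, α ≤ β → β < α + δ → expF β m ≤ expF α m := by
  have hm0 : (m : ℝ) ≠ 0 := by
    have : (1 : ℝ) ≤ m := by exact_mod_cast hm
    linarith
  have hc : ContinuousAt (fun β : ℝ => Real.exp ((m : ℝ) ^ β)) α :=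
    (Real.continuous_exp.continuousAt).comp (Real.continuousAt_const_rpow hm0)
  have hlt : Real.exp ((m : ℝ) ^ α) < expF α m + 1 := by
    unfold expF
    exact Nat.lt_floor_add_one _
  have h1 : ∀ᶠ β in nhds α, Real.exp ((m : ℝ) ^ β) < expF α m + 1 :=
    hc.eventually (gt_mem_nhds hlt)
  rw [Metric.eventually_nhds_iff] at h1
  obtain ⟨δ, hδ, h2⟩ := h1
  refine ⟨δ, hδ, fun β hβ hβδ => ?_⟩
  have h3 := h2 (y := β) (by
    rw [Real.dist_eq, abs_of_nonneg (by linarith)]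
    linarith)
  have h4 : expF β m < expF α m + 1 := by
    unfold expF at h3 ⊢
    rw [Nat.floor_lt (Real.exp_pos _).le]
    exact_mod_cast h3
  omega

section Main

variable {α : ℝ}

theorem eqv_of_dom (hα : GapN α) {G : Type} [Group G] {S : Set G} (hS : S.Finite)
    (hgen : Subgroup.closure S = ⊤) (hV : ¬ Group.IsVirtuallyNilpotent G)
    (hD : Dom (gro S) (expF α)) : Eqv (gro S) (expF α) := by
  by_contra h
  exact hV (hα.2.2 G S hS hgen ⟨hD, h⟩)

theorem bad_of_group (hα : 0 < α) {G : Type} [Group G] {S : Set G} (hS : S.Finite)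
    (hgen : Subgroup.closure S = ⊤) (hV : ¬ Group.IsVirtuallyNilpotent G)
    (hD : Dom (gro S) (expF α)) : ∃ C : ℕ, 1 ≤ C ∧ Bad (fun n => expF α (C * n)) := by
  obtain ⟨D, hD1, hD⟩ := hD
  obtain ⟨k, N, hN, hk, hNV, hg⟩ := two_gen hS hgen hV
  obtain ⟨E, hE, hpow⟩ := pow_expF hα k
  refine ⟨E * D, Nat.mul_pos hE hD1, N, hN, hNV, fun n => ?_⟩
  rcases Nat.eq_zero_or_pos n with rfl | hn
  · rw [gro_zero]
    exact one_le_expF _ _
  · calc gro (SN N) n ≤ k * gro S n ^ k := hg n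
      _ ≤ k * expF α (D * n) ^ k := by
        gcongr
        exact hD n
      _ ≤ expF α (E * (D * n)) := hpow _ (Nat.mul_pos hD1 hn)
      _ = expF α (E * D * n) := by rw [mul_assoc]

theorem just_of_bad (hα : GapN α) {C : ℕ} (hC : 1 ≤ C) (hB : Bad (fun n => expF α (C * n))) :
    ∃ (G : Type) (_ : Group G) (x y : G), Subgroup.closure {x, y} = ⊤ ∧
      ¬ Group.IsVirtuallyNilpotent G ∧
      (∀ (N : Subgroup G) [N.Normal], N ≠ ⊥ → Group.IsVirtuallyNilpotent (G ⧸ N)) ∧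
      Eqv (gro {x, y}) (expF α) := by
  obtain ⟨N, hN, hNV, hg⟩ := hB
  obtain ⟨M, hM, hNM, hMV, hjust⟩ := exists_just N hNV
  have hpair := SN_pair M
  have hgen := SN_gen M
  have hD : Dom (gro (SN M)) (expF α) := ⟨C, hC, fun n => (gro_SN_anti hNM n).trans (hg n)⟩
  have hE := eqv_of_dom hα (SN_finite M) hgen hMV hD
  rw [hpair] at hgen hE
  refine ⟨F2 ⧸ M, inferInstance, _, _, hgen, hMV, ?_, hE⟩
  intro K hK hne
  -- the preimage of `K`
  have hlt : M < K.comap (QuotientGroup.mk' M) := by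
    rw [lt_iff_le_and_ne]
    refine ⟨fun w hw => ?_, fun h => hne ?_⟩
    · rw [Subgroup.mem_comap]
      have : QuotientGroup.mk' M w = 1 := (QuotientGroup.eq_one_iff w).2 hw
      rw [this]
      exact one_mem K
    · rw [eq_bot_iff]
      intro q hq
      obtain ⟨w, rfl⟩ := QuotientGroup.mk'_surjective M q
      have hw : w ∈ K.comap (QuotientGroup.mk' M) := hq
      rw [← h] at hw
      exact (QuotientGroup.eq_one_iff w).2 hw
  have h1 := hjust (K.comap (QuotientGroup.mk' M)) hlt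
  -- the map `F2 ⧸ comap K → (F2 ⧸ M) ⧸ K`
  refine VN.of_surjective (QuotientGroup.lift (K.comap (QuotientGroup.mk' M))
    ((QuotientGroup.mk' K).comp (QuotientGroup.mk' M)) ?_) ?_ h1
  · intro w hw
    exact (QuotientGroup.eq_one_iff _).2 hw
  · intro q
    obtain ⟨q', rfl⟩ := QuotientGroup.mk'_surjective K q
    obtain ⟨w, rfl⟩ := QuotientGroup.mk'_surjective M q'
    exact ⟨QuotientGroup.mk w, rfl⟩

/-- the finite-radius form of compactness -/
theorem radius_of_not_bad (f : ℕ → ℕ) (h : ¬ Bad f) : ∃ R : ℕ, ∀ (N : Subgroup F2) (_ : N.Normal),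
    ¬ Group.IsVirtuallyNilpotent (F2 ⧸ N) → ∃ n, n ≤ R ∧ f n < gro (SN N) n := by
  by_contra hcon
  push Not at hcon
  choose N hN hNV hg using hcon
  apply h
  refine compactness f N hN hNV (fun n => ?_)
  filter_upwards [Filter.eventually_ge_atTop n] with i hi
  exact hg i n hi

/-- a slowly growing function -/
theorem exists_slow (K : ℕ → ℕ) : ∃ L : ℕ → ℕ, Monotone L ∧ (∀ n, 1 ≤ L n) ∧
    (∀ j, 1 ≤ j → L (K j) ≤ j) ∧ ∀ D, ∃ n, 1 ≤ n ∧ D ≤ L n := by
  classical
  set K' : ℕ → ℕ := fun j => ∑ i ∈ Finset.range (j + 1), (K i + 1) with hK'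
  have hmono : Monotone K' := by
    intro i j hij
    apply Finset.sum_le_sum_of_subset
    intro x hx
    rw [Finset.mem_range] at hx ⊢
    omega
  have hge : ∀ j, K j ≤ K' j := by
    intro j
    have : K j + 1 ≤ K' j := Finset.single_le_sum (f := fun i => K i + 1)
      (fun _ _ => Nat.zero_le _) (Finset.mem_range.2 (Nat.lt_succ_self j))
    omega
  have hlarge : ∀ j, j ≤ K' j := by
    intro j
    have : ∑ i ∈ Finset.range (j + 1), 1 ≤ K' j := by
      apply Finset.sum_le_sum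
      intro i _
      omega
    simp at this
    omega
  have hex : ∀ n, ∃ j, 1 ≤ j ∧ n ≤ K' j := fun n =>
    ⟨n + 1, by omega, by have := hlarge (n + 1); omega⟩
  refine ⟨fun n => Nat.find (hex n), ?_, ?_, ?_, ?_⟩
  · intro m n hmn
    apply Nat.find_min'
    have := Nat.find_spec (hex n)
    exact ⟨this.1, hmn.trans this.2⟩
  · intro n
    exact (Nat.find_spec (hex n)).1
  · intro j hj
    exact Nat.find_min' _ ⟨hj, hge j⟩
  · intro D
    refine ⟨K' D + 1, by omega, ?_⟩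
    by_contra hlt
    push Not at hlt
    have h1 := (Nat.find_spec (hex (K' D + 1))).2
    have h2 := hmono hlt.le
    omega

theorem widen (hα : GapN α) (h : ∀ C : ℕ, 1 ≤ C → ¬ Bad (fun n => expF α (C * n))) :
    ∃ g : ℕ → ℕ, Monotone g ∧ SLess (expF α) g ∧ GapFun g := by
  have hα0 := hα.1
  have hM : ∀ C : ℕ, ∃ R : ℕ, 1 ≤ C → ∀ (N : Subgroup F2) (_ : N.Normal),
      ¬ Group.IsVirtuallyNilpotent (F2 ⧸ N) → ∃ n, n ≤ R ∧ expF α (C * n) < gro (SN N) n := by
    intro C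
    by_cases hC : 1 ≤ C
    · obtain ⟨R, hR⟩ := radius_of_not_bad _ (h C hC)
      exact ⟨R, fun _ => hR⟩
    · exact ⟨0, fun h' => absurd h' hC⟩
  choose M hM using hM
  obtain ⟨L, hLm, hL1, hLK, hLu⟩ := exists_slow (fun j => j * M (j * j))
  refine ⟨fun n => expF α (L n * n), ?_, ⟨?_, ?_⟩, ?_⟩
  · intro m n hmn
    exact expF_mono hα0 (Nat.mul_le_mul (hLm hmn) hmn)
  · exact Dom.of_le (fun n => expF_mono hα0 (Nat.le_mul_of_pos_left n (hL1 n)))
  · rintro ⟨-, C, hC, hD⟩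
    -- `L n` is unbounded
    obtain ⟨n, hn1, hn⟩ := hLu (⌈((C : ℝ) ^ α + 1) ^ (1 / α)⌉₊)
    have hn0 : (1 : ℝ) ≤ n := by exact_mod_cast hn1
    have h1 : (C : ℝ) ^ α + 1 ≤ (L n : ℝ) ^ α := by
      have h2 : ((C : ℝ) ^ α + 1) ^ (1 / α) ≤ L n := by
        have h3 := Nat.le_ceil (((C : ℝ) ^ α + 1) ^ (1 / α))
        have h4 : ((⌈((C : ℝ) ^ α + 1) ^ (1 / α)⌉₊ : ℕ) : ℝ) ≤ L n := by exact_mod_cast hn
        linarith
      have h3 : (((C : ℝ) ^ α + 1) ^ (1 / α)) ^ α ≤ (L n : ℝ) ^ α :=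
        Real.rpow_le_rpow (by positivity) h2 hα0.le
      rwa [← Real.rpow_mul (by positivity), one_div, inv_mul_cancel₀ hα0.ne', Real.rpow_one] at h3
    have h2 : ((C * n : ℕ) : ℝ) ^ α + 1 ≤ ((L n * n : ℕ) : ℝ) ^ α := by
      push_cast
      rw [Real.mul_rpow (by positivity) (by positivity), Real.mul_rpow (by positivity)
        (by positivity)]
      have h3 : (1 : ℝ) ≤ (n : ℝ) ^ α := Real.one_le_rpow hn0 hα0.le
      nlinarith
    have h3 := lt_floor_exp (by positivity) h2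
    exact absurd (hD n) (not_le.2 h3)
  · intro G _ S hS hgen hDom
    by_contra hV
    obtain ⟨D, hD1, hD⟩ := hDom
    obtain ⟨k, N, hN, hk, hNV, hg⟩ := two_gen hS hgen hV
    obtain ⟨E, hE, hpow⟩ := pow_expF hα0 k
    set j : ℕ := E * D with hj
    have hj1 : 1 ≤ j := Nat.mul_pos hE hD1
    obtain ⟨n, hn, hlt⟩ := hM (j * j) (Nat.mul_pos hj1 hj1) N hN hNV
    have hDj : D ≤ j := Nat.le_mul_of_pos_left D hE
    have hLn : L (D * n) ≤ j := by
      refine (hLm ?_).trans (hLK j hj1)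
      exact Nat.mul_le_mul hDj hn
    rcases Nat.eq_zero_or_pos n with rfl | hn0
    · rw [gro_zero] at hlt
      have := one_le_expF α (j * j * 0)
      omega
    · have h1 : gro (SN N) n ≤ expF α (j * j * n) := by
        calc gro (SN N) n ≤ k * gro S n ^ k := hg n
          _ ≤ k * expF α (L (D * n) * (D * n)) ^ k := by
            gcongr
            exact hD n
          _ ≤ expF α (E * (L (D * n) * (D * n))) :=
            hpow _ (Nat.mul_pos (hL1 _) (Nat.mul_pos hD1 hn0))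
          _ ≤ expF α (j * j * n) := by
            apply expF_mono hα0
            calc E * (L (D * n) * (D * n)) = L (D * n) * (j * n) := by rw [hj]; ring
              _ ≤ j * (j * n) := Nat.mul_le_mul_right _ hLn
              _ = j * j * n := by ring
      omega

theorem attain_tfae (hα : GapN α) : List.TFAE [
    ∃ (G : Type) (_ : Group G) (S : Set G), S.Finite ∧ Subgroup.closure S = ⊤ ∧
      ¬ Group.IsVirtuallyNilpotent G ∧ Eqv (gro S) (expF α),
    ∃ (G : Type) (_ : Group G) (x y : G), Subgroup.closure {x, y} = ⊤ ∧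
      ¬ Group.IsVirtuallyNilpotent G ∧
      (∀ (N : Subgroup G) [N.Normal], N ≠ ⊥ → Group.IsVirtuallyNilpotent (G ⧸ N)) ∧
      Eqv (gro {x, y}) (expF α),
    ∃ C : ℕ, 1 ≤ C ∧ ∀ β : ℝ, α < β → ∃ (G : Type) (_ : Group G) (x y : G),
      Subgroup.closure {x, y} = ⊤ ∧ ¬ Group.IsVirtuallyNilpotent G ∧
      ∀ n : ℕ, gro {x, y} n ≤ expF β (C * n),
    ∃ C : ℕ, 1 ≤ C ∧ ∀ R : ℕ, ∃ (G : Type) (_ : Group G) (x y : G),
      Subgroup.closure {x, y} = ⊤ ∧ ¬ Group.IsVirtuallyNilpotent G ∧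
      ∀ n : ℕ, n ≤ R → gro {x, y} n ≤ expF α (C * n),
    ¬ ∃ g : ℕ → ℕ, Monotone g ∧ SLess (expF α) g ∧ GapFun g] := by
  have hα0 := hα.1
  tfae_have 1 → 2 := by
    rintro ⟨G, _, S, hS, hgen, hV, hE⟩
    obtain ⟨C, hC, hB⟩ := bad_of_group hα0 hS hgen hV hE.1
    exact just_of_bad hα hC hB
  tfae_have 2 → 3 := by
    rintro ⟨G, _, x, y, hgen, hV, -, ⟨C, hC, hD⟩, -⟩
    exact ⟨C, hC, fun β hβ => ⟨G, _, x, y, hgen, hV, fun n =>
      (hD n).trans (expF_le_expF hα0 hβ.le _)⟩⟩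
  tfae_have 3 → 4 := by
    rintro ⟨C, hC, h⟩
    refine ⟨C, hC, fun R => ?_⟩
    -- `β` close to `α`
    have hδ : ∃ δ : ℝ, 0 < δ ∧ ∀ n, n ≤ R → ∀ β : ℝ, α ≤ β → β < α + δ →
        expF β (C * n) ≤ expF α (C * n) := by
      induction R with
      | zero =>
        refine ⟨1, one_pos, fun n hn β hβ _ => ?_⟩
        have : n = 0 := by omega
        subst this
        rw [mul_zero, expF_zero hα0, expF_zero (hα0.trans_le hβ)]
      | succ R ih =>
        obtain ⟨δ, hδ, h1⟩ := ih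
        obtain ⟨δ', hδ', h2⟩ := expF_right α (C * (R + 1)) (Nat.mul_pos hC (by omega))
        refine ⟨min δ δ', lt_min hδ hδ', fun n hn β hβ hβδ => ?_⟩
        rcases Nat.lt_or_ge n (R + 1) with hlt | hge
        · exact h1 n (by omega) β hβ (by have := min_le_left δ δ'; linarith)
        · have : n = R + 1 := by omega
          subst this
          exact h2 β hβ (by have := min_le_right δ δ'; linarith)
    obtain ⟨δ, hδ, h1⟩ := hδ
    obtain ⟨G, _, x, y, hgen, hV, hg⟩ := h (α + δ / 2) (by linarith)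
    exact ⟨G, _, x, y, hgen, hV, fun n hn =>
      (hg n).trans (h1 n hn (α + δ / 2) (by linarith) (by linarith))⟩
  tfae_have 4 → 1 := by
    rintro ⟨C, hC, h⟩
    have hB : Bad (fun n => expF α (C * n)) := by
      choose G iG x y hgen hV hg using h
      refine compactness _ (fun i => (phi (x i) (y i)).ker) (fun i => inferInstance)
        (fun i hvn => hV i (VN_phi (hgen i) hvn)) (fun n => ?_)
      filter_upwards [Filter.eventually_ge_atTop n] with i hi
      rw [gro_phi]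
      exact hg i n hi
    obtain ⟨N, hN, hNV, hg⟩ := hB
    exact ⟨F2 ⧸ N, inferInstance, SN N, SN_finite N, SN_gen N, hNV,
      eqv_of_dom hα (SN_finite N) (SN_gen N) hNV ⟨C, hC, hg⟩⟩
  tfae_have 1 → 5 := by
    rintro ⟨G, _, S, hS, hgen, hV, hE⟩ ⟨g, -, hg, hgap⟩
    exact hV (hgap G S hS hgen (hE.1.trans hg.1))
  tfae_have 5 → 1 := by
    intro h
    by_contra hcon
    apply h
    apply widen hα
    rintro C hC ⟨N, hN, hNV, hg⟩
    exact hcon ⟨F2 ⧸ N, inferInstance, SN N, SN_finite N, SN_gen N, hNV,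
      eqv_of_dom hα (SN_finite N) (SN_gen N) hNV ⟨C, hC, hg⟩⟩
  tfae_finish

end Main

end Pool.Agent.H342_Gap
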