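import Pool.Agent.H342_Gap.Defs

/-!
Basic facts on balls, growth functions and the preorder.
-/

set_option autoImplicit false

namespace Pool.Agent.H342_Gap

section Balls

variable {G : Type} [Group G]

theorem Ball_mono (S : Set G) {m n : ℕ} (h : m ≤ n) : Ball S m ⊆ Ball S n := by
  rintro g ⟨l, hl, hS, hp⟩
  exact ⟨l, hl.trans h, hS, hp⟩

theorem one_mem_Ball (S : Set G) (n : ℕ) : (1 : G) ∈ Ball S n := ⟨[], by simp, by simp, by simp⟩

theorem Ball_zero (S : Set G) : Ball S 0 = {1} := by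
  ext g
  constructor
  · rintro ⟨l, hl, -, hp⟩
    have : l = [] := List.eq_nil_of_length_eq_zero (by omega)
    subst this
    simpa using hp.symm
  · rintro rfl
    exact one_mem_Ball S 0

theorem mul_mem_Ball {S : Set G} {m n : ℕ} {g h : G} (hg : g ∈ Ball S m) (hh : h ∈ Ball S n) :
    g * h ∈ Ball S (m + n) := by
  obtain ⟨l, hl, hS, rfl⟩ := hg
  obtain ⟨l', hl', hS', rfl⟩ := hh
  refine ⟨l ++ l', by simp; omega, ?_, by simp⟩
  intro x hx
  rcases List.mem_append.1 hx with h | h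
  · exact hS x h
  · exact hS' x h

theorem inv_mem_Ball {S : Set G} {n : ℕ} {g : G} (hg : g ∈ Ball S n) : g⁻¹ ∈ Ball S n := by
  obtain ⟨l, hl, hS, rfl⟩ := hg
  refine ⟨(l.map (·⁻¹)).reverse, by simpa using hl, ?_, ?_⟩
  · intro x hx
    simp only [List.mem_reverse, List.mem_map] at hx
    obtain ⟨y, hy, rfl⟩ := hx
    rcases hS y hy with h | h
    · right; simpa using h
    · left; exact h
  · rw [List.prod_inv_reverse]

theorem Ball_finite {S : Set G} (hS : S.Finite) (n : ℕ) : (Ball S n).Finite := by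
  have hT : (S ∪ S⁻¹).Finite := hS.union hS.inv
  have : Finite (S ∪ S⁻¹ : Set G) := hT
  have h1 : {l : List (S ∪ S⁻¹ : Set G) | l.length ≤ n}.Finite := List.finite_length_le _ n
  refine (h1.image (fun l => (l.map Subtype.val).prod)).subset ?_
  rintro g ⟨l, hl, hS', rfl⟩
  have hl' : ∀ x ∈ l, x ∈ (S ∪ S⁻¹ : Set G) := by
    intro x hx
    rcases hS' x hx with h | h
    · exact Or.inl h
    · exact Or.inr h
  refine ⟨l.attach.map (fun x => ⟨x.1, hl' x.1 x.2⟩), by simpa using hl, ?_⟩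
  simp [List.map_map, Function.comp_def]

theorem gro_mono {S : Set G} (hS : S.Finite) : Monotone (gro S) := fun _ _ h =>
  Set.ncard_le_ncard (Ball_mono S h) (Ball_finite hS _)

theorem gro_zero (S : Set G) : gro S 0 = 1 := by
  unfold gro
  rw [Ball_zero]
  exact Set.ncard_singleton 1

theorem one_le_gro {S : Set G} (hS : S.Finite) (n : ℕ) : 1 ≤ gro S n := by
  rw [← gro_zero S]
  exact gro_mono hS (Nat.zero_le n)

/-- every element of the group generated by `S` is in some ball -/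
theorem exists_mem_Ball {S : Set G} {g : G} (hg : g ∈ Subgroup.closure S) :
    ∃ n, g ∈ Ball S n := by
  induction hg using Subgroup.closure_induction with
  | mem x hx => exact ⟨1, [x], by simp, by simpa using Or.inl hx, by simp⟩
  | one => exact ⟨0, one_mem_Ball S 0⟩
  | mul x y _ _ hx hy =>
    obtain ⟨m, hm⟩ := hx
    obtain ⟨n, hn⟩ := hy
    exact ⟨m + n, mul_mem_Ball hm hn⟩
  | inv x _ hx =>
    obtain ⟨m, hm⟩ := hx
    exact ⟨m, inv_mem_Ball hm⟩

/-- if the generators `T` have length at most `C` with respect to `S` then the ball of radius `n`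
for `T` lies in the ball of radius `C n` for `S` -/
theorem Ball_sub_of_gen {S T : Set G} {C : ℕ} (h : T ⊆ Ball S C) (n : ℕ) :
    Ball T n ⊆ Ball S (C * n) := by
  rintro g ⟨l, hl, hT, rfl⟩
  have key : ∀ l : List G, (∀ x ∈ l, x ∈ T ∨ x⁻¹ ∈ T) → l.prod ∈ Ball S (C * l.length) := by
    intro l
    induction l with
    | nil => intro _; simpa using one_mem_Ball S 0
    | cons x l ih =>
      intro hT
      have h1 := ih (fun y hy => hT y (List.mem_cons_of_mem _ hy))
      have h2 : x ∈ Ball S C := by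
        rcases hT x (by simp) with hx | hx
        · exact h hx
        · have := inv_mem_Ball (h hx)
          simpa using this
      rw [List.prod_cons, List.length_cons, mul_add, mul_one, add_comm]
      exact mul_mem_Ball h2 h1
  exact Ball_mono S (Nat.mul_le_mul_left C hl) (key l hT)

theorem exists_Ball_of_finite {S T : Set G} (hT : T.Finite) (h : T ⊆ Subgroup.closure S) :
    ∃ C : ℕ, 1 ≤ C ∧ T ⊆ Ball S C := by
  induction T, hT using Set.Finite.induction_on with
  | empty => exact ⟨1, le_rfl, by simp⟩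
  | @insert a T _ _ ih =>
    obtain ⟨C, hC, hT'⟩ := ih (fun x hx => h (Set.mem_insert_of_mem _ hx))
    obtain ⟨n, hn⟩ := exists_mem_Ball (h (Set.mem_insert a T))
    refine ⟨C + n, by omega, ?_⟩
    intro x hx
    rcases hx with rfl | hx
    · exact Ball_mono S (by omega) hn
    · exact Ball_mono S (by omega) (hT' hx)

/-- the growth type does not depend on the finite generating set -/
theorem Dom_gro_of_gen {S T : Set G} (hS : S.Finite) (hT : T.Finite)
    (h : Subgroup.closure S = ⊤) : Dom (gro T) (gro S) := by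
  obtain ⟨C, hC, hTC⟩ := exists_Ball_of_finite (S := S) hT (by rw [h]; simp)
  exact ⟨C, hC, fun n => Set.ncard_le_ncard (Ball_sub_of_gen hTC n) (Ball_finite hS _)⟩

/-- image of a ball under a homomorphism -/
theorem image_Ball {H : Type} [Group H] (f : G →* H) (S : Set G) (n : ℕ) :
    f '' Ball S n = Ball (f '' S) n := by
  ext h
  constructor
  · rintro ⟨g, ⟨l, hl, hS, rfl⟩, rfl⟩
    refine ⟨l.map f, by simpa using hl, ?_, by rw [map_list_prod]⟩
    intro x hx
    obtain ⟨y, hy, rfl⟩ := List.mem_map.1 hx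
    rcases hS y hy with h | h
    · exact Or.inl ⟨y, h, rfl⟩
    · exact Or.inr ⟨y⁻¹, h, by simp⟩
  · rintro ⟨l, hl, hS, rfl⟩
    have key : ∀ l : List H, (∀ x ∈ l, x ∈ f '' S ∨ x⁻¹ ∈ f '' S) →
        ∃ l' : List G, l'.length = l.length ∧ (∀ x ∈ l', x ∈ S ∨ x⁻¹ ∈ S) ∧ l'.map f = l := by
      intro l
      induction l with
      | nil => intro _; exact ⟨[], rfl, by simp, rfl⟩
      | cons x l ih =>
        intro h
        obtain ⟨l', h1, h2, h3⟩ := ih (fun y hy => h y (List.mem_cons_of_mem _ hy))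
        rcases h x (by simp) with ⟨y, hy, hxy⟩ | ⟨y, hy, hxy⟩
        · refine ⟨y :: l', by simp [h1], ?_, by simp [hxy, h3]⟩
          intro z hz
          rcases List.mem_cons.1 hz with rfl | hz
          · exact Or.inl hy
          · exact h2 z hz
        · refine ⟨y⁻¹ :: l', by simp [h1], ?_, by simp [hxy, h3]⟩
          intro z hz
          rcases List.mem_cons.1 hz with rfl | hz
          · exact Or.inr (by simpa using hy)
          · exact h2 z hz
    obtain ⟨l', h1, h2, h3⟩ := key l hS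
    exact ⟨l'.prod, ⟨l', by omega, h2, rfl⟩, by rw [map_list_prod, h3]⟩

theorem gro_image_le {H : Type} [Group H] (f : G →* H) {S : Set G} (hS : S.Finite) (n : ℕ) :
    gro (f '' S) n ≤ gro S n := by
  unfold gro
  rw [← image_Ball]
  exact Set.ncard_image_le (Ball_finite hS n)

/-- growth of a section `K → H` of `G` -/
theorem Dom_section {H : Type} [Group H] {S : Set G} (hS : S.Finite)
    (hgen : Subgroup.closure S = ⊤) (K : Subgroup G) (f : K →* H) (hf : Function.Surjective f)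
    {T : Set H} (hT : T.Finite) : Dom (gro T) (gro S) := by
  classical
  -- lift of `T`
  choose s hs using hf
  set T' : Set K := s '' T with hT'
  have hT'f : T'.Finite := hT.image s
  have e1 : f '' T' = T := by
    rw [hT', Set.image_image]
    simp [hs]
  have hT2 : (K.subtype '' T').Finite := hT'f.image _
  obtain ⟨C, hC, hTC⟩ := exists_Ball_of_finite (S := S) hT2 (by rw [hgen]; simp)
  refine ⟨C, hC, fun n => ?_⟩
  calc gro T n = gro (f '' T') n := by rw [e1]
    _ ≤ gro T' n := gro_image_le f hT'f n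
    _ = (K.subtype '' Ball T' n).ncard := by
      rw [Set.ncard_image_of_injective _ K.subtype_injective]
      rfl
    _ = (Ball (K.subtype '' T') n).ncard := by rw [image_Ball]
    _ ≤ gro S (C * n) := Set.ncard_le_ncard (Ball_sub_of_gen hTC n) (Ball_finite hS _)

end Balls

section Order

theorem Dom.refl (f : ℕ → ℕ) : Dom f f := ⟨1, le_rfl, fun n => by rw [one_mul]⟩

theorem Dom.trans {f g h : ℕ → ℕ} (h1 : Dom f g) (h2 : Dom g h) : Dom f h := by
  obtain ⟨C, hC, h1⟩ := h1
  obtain ⟨D, hD, h2⟩ := h2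
  refine ⟨D * C, Nat.mul_pos hD hC, fun n => ?_⟩
  have := (h1 n).trans (h2 (C * n))
  rwa [← mul_assoc] at this

theorem Dom.of_le {f g : ℕ → ℕ} (h : ∀ n, f n ≤ g n) : Dom f g :=
  ⟨1, le_rfl, fun n => by rw [one_mul]; exact h n⟩

theorem Eqv.symm {f g : ℕ → ℕ} (h : Eqv f g) : Eqv g f := ⟨h.2, h.1⟩

theorem Eqv.trans {f g h : ℕ → ℕ} (h1 : Eqv f g) (h2 : Eqv g h) : Eqv f h :=
  ⟨h1.1.trans h2.1, h2.2.trans h1.2⟩

theorem SLess.dom {f g : ℕ → ℕ} (h : SLess f g) : Dom f g := h.1

theorem SLess.not_dom {f g : ℕ → ℕ} (h : SLess f g) : ¬ Dom g f := fun h' => h.2 ⟨h.1, h'⟩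

end Order

section Exp

theorem expF_zero {β : ℝ} (hβ : 0 < β) : expF β 0 = 1 := by
  unfold expF
  rw [Nat.cast_zero, Real.zero_rpow hβ.ne', Real.exp_zero, Nat.floor_one]

theorem one_le_expF (β : ℝ) (n : ℕ) : 1 ≤ expF β n := by
  unfold expF
  apply Nat.le_floor
  rw [Nat.cast_one]
  exact Real.one_le_exp (by positivity)

theorem expF_mono {β : ℝ} (hβ : 0 < β) : Monotone (expF β) := by
  intro m n h
  unfold expF
  apply Nat.floor_le_floor
  apply Real.exp_le_exp.2
  apply Real.rpow_le_rpow (by positivity) (by exact_mod_cast h) hβ.le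

theorem expF_le_expF {β γ : ℝ} (hβ : 0 < β) (h : β ≤ γ) (n : ℕ) : expF β n ≤ expF γ n := by
  rcases Nat.eq_zero_or_pos n with rfl | hn
  · rw [expF_zero hβ, expF_zero (hβ.trans_le h)]
  · unfold expF
    apply Nat.floor_le_floor
    apply Real.exp_le_exp.2
    apply Real.rpow_le_rpow_of_exponent_le (by exact_mod_cast hn) h

theorem lt_floor_exp {x y : ℝ} (hx : 0 ≤ x) (h : x + 1 ≤ y) :
    ⌊Real.exp x⌋₊ < ⌊Real.exp y⌋₊ := by
  have h1 : Real.exp x + 1 ≤ Real.exp y := by
    have h2 : Real.exp (x + 1) ≤ Real.exp y := Real.exp_le_exp.2 h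
    rw [Real.exp_add] at h2
    have h3 : (1 : ℝ) ≤ Real.exp x := Real.one_le_exp hx
    have h4 : (2 : ℝ) ≤ Real.exp 1 := by
      have := Real.add_one_le_exp (1 : ℝ)
      linarith
    nlinarith
  have h2 : ⌊Real.exp x⌋₊ + 1 ≤ ⌊Real.exp y⌋₊ := by
    apply Nat.le_floor
    push_cast
    have := Nat.floor_le (Real.exp_pos x).le
    linarith
  omega

/-- `exp(n^γ)` is not dominated by `exp(n^β)` if `β < γ` -/
theorem not_Dom_expF {β γ : ℝ} (hβ : 0 < β) (h : β < γ) : ¬ Dom (expF γ) (expF β) := by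
  rintro ⟨C, hC, hD⟩
  have hC0 : (0 : ℝ) < C := by exact_mod_cast hC
  have ht : Filter.Tendsto (fun n : ℕ => ((n : ℝ)) ^ (γ - β)) Filter.atTop Filter.atTop :=
    (tendsto_rpow_atTop (by linarith)).comp tendsto_natCast_atTop_atTop
  obtain ⟨n, hn, hn1⟩ := ((ht.eventually_ge_atTop ((C : ℝ) ^ β + 1)).and
    (Filter.eventually_ge_atTop 1)).exists
  have hn0 : (1 : ℝ) ≤ n := by exact_mod_cast hn1
  have h1 : ((C * n : ℕ) : ℝ) ^ β + 1 ≤ (n : ℝ) ^ γ := by
    push_cast
    rw [Real.mul_rpow hC0.le (by positivity)]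
    have e : (n : ℝ) ^ γ = (n : ℝ) ^ β * (n : ℝ) ^ (γ - β) := by
      rw [← Real.rpow_add (by linarith)]
      congr 1
      ring
    have h2 : (1 : ℝ) ≤ (n : ℝ) ^ β := Real.one_le_rpow hn0 hβ.le
    rw [e]
    nlinarith
  have h2 := lt_floor_exp (by positivity) h1
  exact absurd (hD n) (not_le.2 h2)

theorem SLess_expF {β γ : ℝ} (hβ : 0 < β) (h : β < γ) : SLess (expF β) (expF γ) :=
  ⟨Dom.of_le (expF_le_expF hβ h.le), fun h' => not_Dom_expF hβ h h'.2⟩

/-- polynomials are dominated by `exp(n^β)` and do not dominate it -/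
theorem expF_not_poly {β : ℝ} (hβ : 0 < β) (C d : ℕ) :
    ∃ n : ℕ, 1 ≤ n ∧ (C * n) ^ d < expF β n := by
  have ht : Filter.Tendsto (fun n : ℕ => ((n : ℝ)) ^ (β / 2)) Filter.atTop Filter.atTop :=
    (tendsto_rpow_atTop (by linarith)).comp tendsto_natCast_atTop_atTop
  set D : ℝ := d * ((C + 1 : ℝ)) ^ (β / 2) / (β / 2) with hD
  obtain ⟨n, hn, hn1⟩ := ((ht.eventually_ge_atTop (D + 1)).and
    (Filter.eventually_ge_atTop 1)).exists
  refine ⟨n, hn1, ?_⟩
  have hn0 : (1 : ℝ) ≤ n := by exact_mod_cast hn1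
  have hC1 : (0 : ℝ) < (C + 1) * n := by positivity
  have h1 : Real.log ((C + 1) * n) ≤ ((C + 1) * n) ^ (β / 2) / (β / 2) :=
    Real.log_le_rpow_div hC1.le (by linarith)
  have h2 : ((((C + 1) * n) ^ d : ℕ) : ℝ) ≤ Real.exp (D * (n : ℝ) ^ (β / 2)) := by
    have : ((((C + 1) * n) ^ d : ℕ) : ℝ) = Real.exp (d * Real.log ((C + 1) * n)) := by
      rw [mul_comm (d : ℝ), Real.exp_mul, Real.exp_log hC1, Real.rpow_natCast]
      push_cast
      rfl
    rw [this]
    apply Real.exp_le_exp.2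
    calc (d : ℝ) * Real.log ((C + 1) * n) ≤ d * (((C + 1) * n) ^ (β / 2) / (β / 2)) := by
          gcongr
      _ = D * (n : ℝ) ^ (β / 2) := by
        rw [hD, Real.mul_rpow (by positivity) (by positivity)]
        ring
  have hD0 : 0 ≤ D := by positivity
  have h3 : D * (n : ℝ) ^ (β / 2) + 1 ≤ (n : ℝ) ^ β := by
    have e : (n : ℝ) ^ β = (n : ℝ) ^ (β / 2) * (n : ℝ) ^ (β / 2) := by
      rw [← Real.rpow_add (by linarith)]
      congr 1
      ring
    have h4 : (1 : ℝ) ≤ (n : ℝ) ^ (β / 2) := Real.one_le_rpow hn0 (by linarith)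
    rw [e]
    nlinarith
  have h4 := lt_floor_exp (by positivity) h3
  have h5 : ((C + 1) * n) ^ d ≤ ⌊Real.exp (D * (n : ℝ) ^ (β / 2))⌋₊ := Nat.le_floor h2
  calc (C * n) ^ d ≤ ((C + 1) * n) ^ d := Nat.pow_le_pow_left (Nat.mul_le_mul_right _ (by omega)) _
    _ ≤ _ := h5
    _ < _ := h4

end Exp

end Pool.Agent.H342_Gap
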