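import Pool.Agent.H342_Gap.VN
import Pool.Agent.H342_Gap.Basic

/-!
Limits of quotients of a fixed finitely generated group along an ultrafilter, and just-non-virtually
nilpotent quotients.
-/

set_option autoImplicit false

namespace Pool.Agent.H342_Gap

/-- the free group on two letters -/
abbrev F2 : Type := FreeGroup (Fin 2)

/-- its generating set -/
def SF : Set F2 := Set.range FreeGroup.of

/-- the images of the two letters in the quotient by `N` -/
def SN (N : Subgroup F2) [N.Normal] : Set (F2 ⧸ N) := QuotientGroup.mk' N '' SF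

theorem SF_finite : SF.Finite := Set.finite_range _

theorem SF_gen : Subgroup.closure SF = ⊤ := FreeGroup.closure_range_of (Fin 2)

theorem SN_finite (N : Subgroup F2) [N.Normal] : (SN N).Finite := SF_finite.image _

theorem SN_gen (N : Subgroup F2) [N.Normal] : Subgroup.closure (SN N) = ⊤ := by
  unfold SN
  rw [← MonoidHom.map_closure, SF_gen, ← MonoidHom.range_eq_map]
  exact QuotientGroup.range_mk' _

theorem gro_SN (N : Subgroup F2) [N.Normal] (n : ℕ) :
    gro (SN N) n = (QuotientGroup.mk' N '' Ball SF n).ncard := by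
  unfold gro SN
  rw [image_Ball]

/-- the limit of a sequence of normal subgroups along an ultrafilter -/
def limSub (U : Ultrafilter ℕ) (N : ℕ → Subgroup F2) : Subgroup F2 where
  carrier := {w | ∀ᶠ i in (U : Filter ℕ), w ∈ N i}
  mul_mem' {a b} ha hb := by
    simp only [Set.mem_setOf_eq] at ha hb ⊢
    filter_upwards [ha, hb] with i h1 h2
    exact mul_mem h1 h2
  one_mem' := by
    simp only [Set.mem_setOf_eq]
    exact Filter.Eventually.of_forall fun i => one_mem _
  inv_mem' {a} ha := by
    simp only [Set.mem_setOf_eq] at ha ⊢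
    filter_upwards [ha] with i h1
    exact inv_mem h1

theorem mem_limSub {U : Ultrafilter ℕ} {N : ℕ → Subgroup F2} {w : F2} :
    w ∈ limSub U N ↔ ∀ᶠ i in (U : Filter ℕ), w ∈ N i := Iff.rfl

theorem limSub_normal (U : Ultrafilter ℕ) (N : ℕ → Subgroup F2) (hN : ∀ i, (N i).Normal) :
    (limSub U N).Normal := by
  refine ⟨fun n hn g => ?_⟩
  rw [mem_limSub] at hn ⊢
  filter_upwards [hn] with i h1
  exact (hN i).conj_mem n h1 g

theorem gro_limSub (U : Ultrafilter ℕ) (N : ℕ → Subgroup F2) [hN : ∀ i, (N i).Normal]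
    [hL : (limSub U N).Normal] (n : ℕ) :
    ∀ᶠ i in (U : Filter ℕ), gro (SN (limSub U N)) n ≤ gro (SN (N i)) n := by
  classical
  have hB : (Ball SF n).Finite := Ball_finite SF_finite n
  -- pairs outside the limit are outside `N i`
  have key : ∀ᶠ i in (U : Filter ℕ), ∀ x ∈ Ball SF n, ∀ y ∈ Ball SF n,
      x⁻¹ * y ∉ limSub U N → x⁻¹ * y ∉ N i := by
    rw [Filter.eventually_all_finite hB]
    intro x _
    rw [Filter.eventually_all_finite hB]
    intro y _
    by_cases h : x⁻¹ * y ∈ limSub U N
    · exact Filter.Eventually.of_forall fun i h' => absurd h h'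
    · rw [mem_limSub, ← Ultrafilter.eventually_not] at h
      filter_upwards [h] with i hi _
      exact hi
  filter_upwards [key] with i hi
  rw [gro_SN, gro_SN]
  -- a section of `mk'`
  have hs : ∀ q ∈ QuotientGroup.mk' (limSub U N) '' Ball SF n, ∃ x ∈ Ball SF n,
      QuotientGroup.mk' (limSub U N) x = q := fun q hq => hq
  choose! s hs1 hs2 using hs
  refine Set.ncard_le_ncard_of_injOn (fun q => QuotientGroup.mk' (N i) (s q)) ?_ ?_ (hB.image _)
  · intro q hq
    exact ⟨s q, hs1 q hq, rfl⟩
  · intro q hq q' hq' hqq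
    by_contra hne
    have h1 : (s q)⁻¹ * s q' ∉ limSub U N := by
      intro hmem
      apply hne
      rw [← hs2 q hq, ← hs2 q' hq']
      exact QuotientGroup.eq.2 hmem
    have h2 := hi _ (hs1 q hq) _ (hs1 q' hq') h1
    exact h2 (QuotientGroup.eq.1 hqq)

theorem VN_limSub (U : Ultrafilter ℕ) (N : ℕ → Subgroup F2) [hN : ∀ i, (N i).Normal]
    [hL : (limSub U N).Normal] (h : Group.IsVirtuallyNilpotent (F2 ⧸ limSub U N)) :
    ∀ᶠ i in (U : Filter ℕ), Group.IsVirtuallyNilpotent (F2 ⧸ N i) := by
  obtain ⟨R, hR, hRN, hall⟩ := VN_finite_relations (limSub U N) h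
  have key : ∀ᶠ i in (U : Filter ℕ), ∀ r ∈ R, r ∈ N i := by
    rw [Filter.eventually_all_finite hR]
    intro r hr
    exact mem_limSub.1 (hRN hr)
  filter_upwards [key] with i hi
  exact hall (N i) hi

/-- some quotient of the free group of rank two which is not virtually nilpotent has growth function
at most `f` -/
def Bad (f : ℕ → ℕ) : Prop := ∃ (N : Subgroup F2) (_ : N.Normal),
  ¬ Group.IsVirtuallyNilpotent (F2 ⧸ N) ∧ ∀ n, gro (SN N) n ≤ f n

/-- **compactness** -/
theorem compactness (f : ℕ → ℕ) (N : ℕ → Subgroup F2) (hN : ∀ i, (N i).Normal)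
    (hV : ∀ i, ¬ Group.IsVirtuallyNilpotent (F2 ⧸ N i))
    (hf : ∀ n, ∀ᶠ i in Filter.atTop, gro (SN (N i)) n ≤ f n) : Bad f := by
  set U : Ultrafilter ℕ := Filter.hyperfilter ℕ with hU
  have hle : (U : Filter ℕ) ≤ Filter.atTop := by
    rw [← Nat.cofinite_eq_atTop]
    exact Filter.hyperfilter_le_cofinite
  have hL : (limSub U N).Normal := limSub_normal U N hN
  refine ⟨limSub U N, hL, fun h => ?_, fun n => ?_⟩
  · have h1 := VN_limSub U N h
    obtain ⟨i, hi⟩ := h1.exists
    exact hV i hi
  · have h1 := gro_limSub U N n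
    have h2 := hle (hf n)
    obtain ⟨i, hi1, hi2⟩ := (h1.and h2).exists
    exact hi1.trans hi2

/-- quotients do not increase the growth function -/
theorem gro_SN_anti {N N' : Subgroup F2} [N.Normal] [N'.Normal] (h : N ≤ N') (n : ℕ) :
    gro (SN N') n ≤ gro (SN N) n := by
  have e : SN N' = QuotientGroup.map N N' (MonoidHom.id F2) h '' SN N := by
    unfold SN
    rw [Set.image_image]
    rfl
  rw [e]
  exact gro_image_le _ (SN_finite N) n

/-- a quotient which is not virtually nilpotent has a just non virtually nilpotent quotient -/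
theorem exists_just (N : Subgroup F2) [hN : N.Normal]
    (hV : ¬ Group.IsVirtuallyNilpotent (F2 ⧸ N)) :
    ∃ (M : Subgroup F2) (_ : M.Normal), N ≤ M ∧ ¬ Group.IsVirtuallyNilpotent (F2 ⧸ M) ∧
      ∀ (M' : Subgroup F2) [M'.Normal], M < M' → Group.IsVirtuallyNilpotent (F2 ⧸ M') := by
  let P : Set (Subgroup F2) := {M | ∃ _ : M.Normal, N ≤ M ∧ ¬ Group.IsVirtuallyNilpotent (F2 ⧸ M)}
  obtain ⟨M, hNM, hM⟩ := zorn_le_nonempty₀ P (by
    intro c hc hchain K hK
    -- the union of the chain
    have hdir : DirectedOn (· ≤ ·) c := hchain.directedOn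
    have hne : c.Nonempty := ⟨K, hK⟩
    have hmem : ∀ w : F2, w ∈ sSup c ↔ ∃ L ∈ c, w ∈ L := fun w =>
      Subgroup.mem_sSup_of_directedOn hne hdir
    have hnorm : (sSup c).Normal := by
      refine ⟨fun n hn g => ?_⟩
      rw [hmem] at hn ⊢
      obtain ⟨L, hL, hnL⟩ := hn
      obtain ⟨hLn, -, -⟩ := hc hL
      exact ⟨L, hL, hLn.conj_mem n hnL g⟩
    refine ⟨sSup c, ⟨hnorm, ?_, ?_⟩, fun L hL => le_sSup hL⟩
    · obtain ⟨-, h1, -⟩ := hc hK
      exact h1.trans (le_sSup hK)
    · intro hvn
      obtain ⟨R, hR, hRN, hall⟩ := VN_finite_relations (sSup c) hvn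
      -- a member of the chain containing `R`
      have : ∃ L ∈ c, R ⊆ L := by
        clear hall
        induction R, hR using Set.Finite.induction_on with
        | empty => exact ⟨K, hK, by simp⟩
        | @insert r R _ _ ih =>
          obtain ⟨L, hL, hRL⟩ := ih (fun x hx => hRN (Set.mem_insert_of_mem _ hx))
          obtain ⟨L', hL', hr⟩ := (hmem r).1 (hRN (Set.mem_insert r R))
          rcases hchain.total hL hL' with h | h
          · refine ⟨L', hL', ?_⟩
            intro x hx
            rcases hx with rfl | hx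
            · exact hr
            · exact h (hRL hx)
          · refine ⟨L, hL, ?_⟩
            intro x hx
            rcases hx with rfl | hx
            · exact h hr
            · exact hRL hx
      obtain ⟨L, hL, hRL⟩ := this
      obtain ⟨hLn, -, hLV⟩ := hc hL
      exact hLV (hall L hRL)) N ⟨hN, le_rfl, hV⟩
  obtain ⟨⟨hMn, hNM', hMV⟩, hmax⟩ := hM
  refine ⟨M, hMn, hNM, hMV, fun M' hM'n hlt => ?_⟩
  by_contra hcon
  exact hlt.not_ge (hmax ⟨hM'n, hNM.trans hlt.le, hcon⟩ hlt.le)

end Pool.Agent.H342_Gap
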