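import Mathlib

/-!
Growth functions of finitely generated groups, the preorder `⪯`, and gap exponents.
-/

set_option autoImplicit false

namespace Pool.Agent.H342_Gap

/-- the elements of `G` that are products of at most `n` elements of `S ∪ S⁻¹` -/
def Ball {G : Type} [Group G] (S : Set G) (n : ℕ) : Set G :=
  {g | ∃ l : List G, l.length ≤ n ∧ (∀ x ∈ l, x ∈ S ∨ x⁻¹ ∈ S) ∧ l.prod = g}

/-- the growth function of `G` with respect to `S` -/
noncomputable def gro {G : Type} [Group G] (S : Set G) (n : ℕ) : ℕ := (Ball S n).ncard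

/-- `f ⪯ g`: there is `C ≥ 1` with `f n ≤ g (C n)` for all `n` -/
def Dom (f g : ℕ → ℕ) : Prop := ∃ C : ℕ, 1 ≤ C ∧ ∀ n : ℕ, f n ≤ g (C * n)

/-- `f ∼ g` -/
def Eqv (f g : ℕ → ℕ) : Prop := Dom f g ∧ Dom g f

/-- `f ≺ g`: `f ⪯ g` but not `f ∼ g` -/
def SLess (f g : ℕ → ℕ) : Prop := Dom f g ∧ ¬ Eqv f g

/-- `n ↦ ⌊exp(n^β)⌋` -/
noncomputable def expF (β : ℝ) (n : ℕ) : ℕ := ⌊Real.exp ((n : ℝ) ^ β)⌋₊

end Pool.Agent.H342_Gap
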