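import Pool.Agent.H342_Gap.Compact

/-!
From a finitely generated group which is not virtually nilpotent to one with two generators.
-/

set_option autoImplicit false

namespace Pool.Agent.H342_Gap

open RegularWreathProduct

section

variable {G : Type} [Group G]

theorem gro_ker {H : Type} [Group H] (φ : F2 →* H) (n : ℕ) :
    gro (SN φ.ker) n = gro (φ '' SF) n := by
  rw [gro_SN]
  unfold gro
  rw [← image_Ball]
  have e : φ '' Ball SF n = QuotientGroup.kerLift φ '' (QuotientGroup.mk' φ.ker '' Ball SF n) := by
    rw [Set.image_image]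
    rfl
  rw [e, Set.ncard_image_of_injective _ (QuotientGroup.kerLift_injective φ)]

/-- reduction to two generators -/
theorem two_gen {S : Set G} (hS : S.Finite) (hgen : Subgroup.closure S = ⊤)
    (hV : ¬ Group.IsVirtuallyNilpotent G) :
    ∃ (k : ℕ) (N : Subgroup F2) (_ : N.Normal), 1 ≤ k ∧ ¬ Group.IsVirtuallyNilpotent (F2 ⧸ N) ∧
      ∀ n, gro (SN N) n ≤ k * gro S n ^ k := by
  classical
  set S' : Set G := insert 1 S with hS'
  have hS'f : S'.Finite := hS.insert 1
  have hfin : Finite S' := hS'f
  have hne : Nonempty S' := ⟨⟨1, Set.mem_insert 1 S⟩⟩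
  set k : ℕ := Nat.card S' with hk
  have hkpos : 0 < k := Nat.card_pos
  haveI : NeZero k := ⟨hkpos.ne'⟩
  have hcard : Nat.card (ZMod k) = Nat.card S' := by rw [Nat.card_zmod]
  haveI : Fintype S' := Fintype.ofFinite _
  let e : ZMod k ≃ S' := Fintype.equivOfCardEq (by
    rw [← Nat.card_eq_fintype_card, ← Nat.card_eq_fintype_card]
    exact hcard)
  let Q : Type := Multiplicative (ZMod k)
  let x : RegularWreathProduct G Q := ⟨fun q => (e (Multiplicative.toAdd q)).1, 1⟩
  let t : RegularWreathProduct G Q := ⟨1, Multiplicative.ofAdd 1⟩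
  let φ : F2 →* RegularWreathProduct G Q := FreeGroup.lift ![x, t]
  have hx : φ (FreeGroup.of 0) = x := by simp [φ]
  have ht : φ (FreeGroup.of 1) = t := by simp [φ]
  have hφS : φ '' SF = {x, t} := by
    ext y
    constructor
    · rintro ⟨_, ⟨i, rfl⟩, rfl⟩
      fin_cases i
      · left; exact hx
      · right; exact ht
    · rintro (rfl | rfl)
      · exact ⟨_, ⟨0, rfl⟩, hx⟩
      · exact ⟨_, ⟨1, rfl⟩, ht⟩
  have hxl : ∀ q : Q, x.left q ∈ Ball S 1 := by
    intro q
    have h1 : (e (Multiplicative.toAdd q)).1 ∈ S' := (e (Multiplicative.toAdd q)).2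
    rcases h1 with h1 | h1
    · show (e (Multiplicative.toAdd q)).1 ∈ Ball S 1
      rw [h1]
      exact one_mem_Ball S 1
    · exact ⟨[(e (Multiplicative.toAdd q)).1], by simp, by simpa using Or.inl h1, by simp; rfl⟩
  -- the growth
  have hD : ∀ n, Ball ({x, t} : Set (RegularWreathProduct G Q)) n ⊆
      {w | ∀ q, w.left q ∈ Ball S n} := by
    have key : ∀ l : List (RegularWreathProduct G Q),
        (∀ y ∈ l, y ∈ ({x, t} : Set (RegularWreathProduct G Q)) ∨
          y⁻¹ ∈ ({x, t} : Set (RegularWreathProduct G Q))) →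
        ∀ q, l.prod.left q ∈ Ball S l.length := by
      intro l
      induction l with
      | nil => intro _ q; exact one_mem_Ball S _
      | cons y l ih =>
        intro h q
        have h1 := ih (fun z hz => h z (List.mem_cons_of_mem _ hz))
        have h2 : ∀ q, y.left q ∈ Ball S 1 := by
          intro q
          rcases h y (by simp) with (h3 | h3) | (h3 | h3)
          · rw [h3]; exact hxl q
          · rw [h3]; exact one_mem_Ball S 1
          · have : y = x⁻¹ := by rw [← h3, inv_inv]
            rw [this]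
            exact inv_mem_Ball (hxl _)
          · have : y = t⁻¹ := by rw [← h3, inv_inv]
            rw [this]
            have h4 : (t⁻¹).left q = 1 := by
              show ((1 : Q → G)⁻¹) (t.right * q) = 1
              simp
            rw [h4]
            exact one_mem_Ball S 1
        rw [List.prod_cons, List.length_cons, add_comm]
        exact mul_mem_Ball (h2 q) (h1 _)
    rintro n _ ⟨l, hl, h, rfl⟩ q
    exact Ball_mono S hl (key l h q)
  have hgrow : ∀ n, gro (SN φ.ker) n ≤ k * gro S n ^ k := by
    intro n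
    rw [gro_ker, hφS]
    have hBf : (Ball S n).Finite := Ball_finite hS n
    haveI : Finite (Ball S n) := hBf
    let E : {w : RegularWreathProduct G Q | ∀ q, w.left q ∈ Ball S n} ≃
        (Q → Ball S n) × Q :=
      { toFun := fun w => (fun q => ⟨w.1.left q, w.2 q⟩, w.1.right)
        invFun := fun p => ⟨⟨fun q => (p.1 q).1, p.2⟩, fun q => (p.1 q).2⟩
        left_inv := fun w => rfl
        right_inv := fun p => rfl }
    have hcardE : Nat.card {w : RegularWreathProduct G Q | ∀ q, w.left q ∈ Ball S n} =
        gro S n ^ k * k := by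
      rw [Nat.card_congr E, Nat.card_prod, Nat.card_fun]
      have h1 : Nat.card Q = k := Nat.card_zmod k
      rw [h1]
      rfl
    have hfinD : {w : RegularWreathProduct G Q | ∀ q, w.left q ∈ Ball S n}.Finite := by
      haveI : Finite Q := inferInstanceAs (Finite (Multiplicative (ZMod k)))
      exact Finite.of_equiv _ E.symm
    calc gro ({x, t} : Set (RegularWreathProduct G Q)) n
        ≤ {w : RegularWreathProduct G Q | ∀ q, w.left q ∈ Ball S n}.ncard :=
          Set.ncard_le_ncard (hD n) hfinD
      _ = gro S n ^ k * k := hcardE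
      _ = k * gro S n ^ k := mul_comm _ _
  refine ⟨k, φ.ker, inferInstance, hkpos, ?_, hgrow⟩
  intro hvn
  apply hV
  have h1 : Group.IsVirtuallyNilpotent φ.range :=
    VN.of_surjective (QuotientGroup.quotientKerEquivRange φ).toMonoidHom
      (QuotientGroup.quotientKerEquivRange φ).surjective hvn
  have h2 := VN.subgroup h1 ((RegularWreathProduct.rightHom (D := G) (Q := Q)).ker.subgroupOf φ.range)
  let ψ : ((RegularWreathProduct.rightHom (D := G) (Q := Q)).ker.subgroupOf φ.range) →* G :=
    { toFun := fun w => w.1.1.left 1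
      map_one' := rfl
      map_mul' := by
        intro a b
        have ha : a.1.1.right = 1 := a.2
        show a.1.1.left 1 * b.1.1.left (a.1.1.right⁻¹ * 1) = _
        rw [ha, inv_one, one_mul] }
  refine VN.of_surjective ψ ?_ h2
  rw [← MonoidHom.range_eq_top, eq_top_iff, ← hgen, Subgroup.closure_le]
  intro s hs
  -- the index of `s`
  obtain ⟨z, hz⟩ : ∃ z : ZMod k, (e z).1 = s :=
    ⟨e.symm ⟨s, Set.mem_insert_of_mem 1 hs⟩, by simp⟩
  -- the conjugating element
  let u : RegularWreathProduct G Q := t ^ (-z).val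
  have htr : t ∈ φ.range := ⟨_, ht⟩
  have hu : u ∈ φ.range := pow_mem htr _
  have hxr : x ∈ φ.range := ⟨_, hx⟩
  have hpow : ∀ j : ℕ, (t ^ j).left = 1 ∧ (t ^ j).right = Multiplicative.ofAdd (j : ZMod k) := by
    intro j
    induction j with
    | zero =>
      refine ⟨rfl, ?_⟩
      rw [Nat.cast_zero]
      rfl
    | succ j ih =>
      rw [pow_succ]
      refine ⟨?_, ?_⟩
      · funext q
        show (t ^ j).left q * t.left ((t ^ j).right⁻¹ * q) = 1
        rw [ih.1]
        show (1 : G) * 1 = 1
        simp
      · show (t ^ j).right * t.right = _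
        rw [ih.2]
        show Multiplicative.ofAdd (j : ZMod k) * Multiplicative.ofAdd 1 = _
        rw [← ofAdd_add]
        push_cast
        rfl
  have hur : u.right = Multiplicative.ofAdd (-z) := by
    have := (hpow (-z).val).2
    rw [ZMod.natCast_zmod_val] at this
    exact this
  have hul : u.left = 1 := (hpow (-z).val).1
  let w : RegularWreathProduct G Q := u * x * u⁻¹
  have hw : w ∈ φ.range := mul_mem (mul_mem hu hxr) (inv_mem hu)
  have hwk : w ∈ (RegularWreathProduct.rightHom (D := G) (Q := Q)).ker := by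
    show (u * x * u⁻¹).right = 1
    show u.right * 1 * u.right⁻¹ = 1
    rw [mul_one]
    exact mul_inv_cancel u.right
  refine ⟨⟨⟨w, hw⟩, hwk⟩, ?_⟩
  show w.left 1 = s
  have e1 : w.left 1 = u.left 1 * x.left (u.right⁻¹ * 1) *
      (u.left (u.right * ((u * x).right⁻¹ * 1)))⁻¹ := rfl
  rw [e1, hul, hur]
  simp only [Pi.one_apply, one_mul, mul_one, inv_one]
  show (e (Multiplicative.toAdd (Multiplicative.ofAdd (-z))⁻¹)).1 = s
  rw [← hz]
  simp

end

end Pool.Agent.H342_Gap
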