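import Mathlib

/-!
Virtually nilpotent groups: stability properties, and the fact that virtual nilpotency of a quotient
of a finitely generated group is witnessed by finitely many relations.
-/

set_option autoImplicit false

namespace Pool.Agent.H342_Gap

open scoped commutatorElement

universe u v

theorem isNilpotent_of_injective {G : Type u} {H : Type v} [Group G] [Group H] (f : G →* H)
    (hf : Function.Injective f) [Group.IsNilpotent H] : Group.IsNilpotent G := by
  apply Subgroup.isNilpotent_of_ker_le_center f
  rw [(MonoidHom.ker_eq_bot_iff f).2 hf]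
  exact bot_le

theorem isNilpotent_of_surj {G : Type u} {H : Type v} [Group G] [Group H] (f : G →* H)
    (hf : Function.Surjective f) [h : Group.IsNilpotent G] : Group.IsNilpotent H := by
  obtain ⟨n, hn⟩ := Subgroup.nilpotent_iff_lowerCentralSeries.1 h
  rw [Subgroup.nilpotent_iff_lowerCentralSeries]
  refine ⟨n, ?_⟩
  have h1 := Subgroup.map_lowerCentralSeries (⊤ : Subgroup G) f n
  rw [hn, Subgroup.map_bot, Subgroup.map_top_of_surjective f hf] at h1
  exact h1.symm

theorem finiteIndex_map {G : Type u} {H : Type v} [Group G] [Group H] (f : G →* H)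
    (hf : Function.Surjective f) (K : Subgroup G) [hK : K.FiniteIndex] :
    (K.map f).FiniteIndex := by
  refine ⟨fun h0 => hK.index_ne_zero ?_⟩
  have := K.index_map_dvd hf
  rw [h0] at this
  exact Nat.eq_zero_of_zero_dvd this

theorem VN.of_surjective {G : Type u} {H : Type v} [Group G] [Group H] (f : G →* H)
    (hf : Function.Surjective f) (h : Group.IsVirtuallyNilpotent G) :
    Group.IsVirtuallyNilpotent H := by
  obtain ⟨N, hN, hI⟩ := h
  refine ⟨N.map f, ?_, finiteIndex_map f hf N⟩
  exact isNilpotent_of_surj (f.subgroupMap N) (f.subgroupMap_surjective N)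

theorem VN.subgroup {G : Type u} [Group G] (h : Group.IsVirtuallyNilpotent G) (K : Subgroup G) :
    Group.IsVirtuallyNilpotent K := by
  obtain ⟨N, hN, hI⟩ := h
  refine ⟨N.subgroupOf K, ?_, inferInstance⟩
  let g : N.subgroupOf K →* N :=
    (K.subtype.comp (N.subgroupOf K).subtype).codRestrict N (fun x => x.2)
  have hg : Function.Injective g := by
    intro x y hxy
    have : (g x : G) = (g y : G) := by rw [hxy]
    exact Subtype.ext (Subtype.ext this)
  exact isNilpotent_of_injective g hg

/-- left-normed commutators of weight `n + 1` with entries in `T` -/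
def cset {G : Type u} [Group G] (T : Set G) : ℕ → Set G
  | 0 => T
  | n + 1 => Set.image2 (fun y t => ⁅y, t⁆) (cset T n) T

theorem cset_finite {G : Type u} [Group G] {T : Set G} (hT : T.Finite) (n : ℕ) :
    (cset T n).Finite := by
  induction n with
  | zero => exact hT
  | succ n ih => exact ih.image2 _ hT

theorem image_cset {G : Type u} {H : Type v} [Group G] [Group H] (f : G →* H) (T : Set G) (n : ℕ) :
    f '' cset T n = cset (f '' T) n := by
  induction n with
  | zero => rfl
  | succ n ih =>
    simp only [cset]
    rw [Set.image_image2]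
    simp only [map_commutatorElement]
    rw [← ih, Set.image2_image_left, Set.image2_image_right]

theorem cset_sub_lcs {G : Type u} [Group G] (T : Set G) (n : ℕ) :
    cset T n ⊆ (⊤ : Subgroup G).lowerCentralSeries n := by
  induction n with
  | zero => intro x _; trivial
  | succ n ih =>
    rintro _ ⟨y, hy, t, -, rfl⟩
    rw [Subgroup.lowerCentralSeries_succ]
    exact Subgroup.commutator_mem_commutator (ih hy) trivial

theorem isNilpotent_of_cset (n : ℕ) : ∀ (G : Type u) [Group G] (T : Set G),
    Subgroup.closure T = ⊤ → (∀ x ∈ cset T n, x = 1) → Group.IsNilpotent G := by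
  induction n with
  | zero =>
    intro G _ T hT h
    have h1 : Subgroup.closure T = ⊥ := by
      rw [Subgroup.closure_eq_bot_iff]
      exact h
    have h2 : (⊥ : Subgroup G) = ⊤ := by rw [← h1, hT]
    have : Subsingleton G := by
      refine ⟨fun x y => ?_⟩
      have hx : x ∈ (⊥ : Subgroup G) := by rw [h2]; trivial
      have hy : y ∈ (⊥ : Subgroup G) := by rw [h2]; trivial
      rw [Subgroup.mem_bot] at hx hy
      rw [hx, hy]
    infer_instance
  | succ n ih =>
    intro G _ T hT h
    have hc : cset T n ⊆ Subgroup.center G := by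
      intro y hy
      have hle : Subgroup.closure T ≤ Subgroup.centralizer {y} := by
        rw [Subgroup.closure_le]
        intro t ht
        have := h ⁅y, t⁆ ⟨y, hy, t, ht, rfl⟩
        rw [commutatorElement_eq_one_iff_mul_comm] at this
        rw [SetLike.mem_coe, Subgroup.mem_centralizer_iff]
        intro z hz
        rw [Set.mem_singleton_iff] at hz
        rw [hz, this]
      rw [hT] at hle
      rw [SetLike.mem_coe, Subgroup.mem_center_iff]
      intro g
      have := hle (show g ∈ (⊤ : Subgroup G) from trivial)
      rw [Subgroup.mem_centralizer_iff] at this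
      exact (this y rfl).symm
    have hq : Group.IsNilpotent (G ⧸ Subgroup.center G) := by
      apply ih (G ⧸ Subgroup.center G) (QuotientGroup.mk' (Subgroup.center G) '' T)
      · have := MonoidHom.map_closure (QuotientGroup.mk' (Subgroup.center G)) T
        rw [← this, hT, ← MonoidHom.range_eq_map]
        exact QuotientGroup.range_mk' _
      · intro x hx
        rw [← image_cset] at hx
        obtain ⟨y, hy, rfl⟩ := hx
        exact (QuotientGroup.eq_one_iff y).2 (hc hy)
    apply Subgroup.isNilpotent_of_ker_le_center (QuotientGroup.mk' (Subgroup.center G))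
    rw [QuotientGroup.ker_mk']

/-- Virtual nilpotency of a quotient of a finitely generated group follows from finitely many
relations. -/
theorem VN_finite_relations {F : Type u} [Group F] [Group.FG F] (N : Subgroup F) [N.Normal]
    (h : Group.IsVirtuallyNilpotent (F ⧸ N)) : ∃ R : Set F, R.Finite ∧ R ⊆ N ∧
      ∀ (N' : Subgroup F) [N'.Normal], R ⊆ N' → Group.IsVirtuallyNilpotent (F ⧸ N') := by
  obtain ⟨K, hK, hI⟩ := h
  set H : Subgroup F := K.comap (QuotientGroup.mk' N) with hH
  have hHI : H.FiniteIndex := by
    refine ⟨?_⟩
    rw [hH, Subgroup.index_comap_of_surjective _ (QuotientGroup.mk'_surjective N)]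
    exact hI.index_ne_zero
  have hfg : Group.FG H := inferInstance
  obtain ⟨T, hT, hTf⟩ := Group.fg_iff.1 hfg
  obtain ⟨n, hn⟩ := Subgroup.nilpotent_iff_lowerCentralSeries.1 hK
  -- the map `H → K`
  let f : H →* K := ((QuotientGroup.mk' N).comp H.subtype).codRestrict K (fun x => x.2)
  have hf1 : ∀ x ∈ cset T n, f x = 1 := by
    intro x hx
    have h1 : f x ∈ cset (f '' T) n := by
      rw [← image_cset]
      exact ⟨x, hx, rfl⟩
    have h2 := cset_sub_lcs _ _ h1
    rw [hn] at h2
    simpa using h2
  refine ⟨H.subtype '' cset T n, (cset_finite hTf n).image _, ?_, ?_⟩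
  · rintro _ ⟨x, hx, rfl⟩
    have h1 := congrArg Subtype.val (hf1 x hx)
    have h2 : QuotientGroup.mk' N (H.subtype x) = 1 := h1
    exact (QuotientGroup.eq_one_iff _).1 h2
  · intro N' _ hR
    refine ⟨H.map (QuotientGroup.mk' N'), ?_,
      finiteIndex_map _ (QuotientGroup.mk'_surjective N') H⟩
    let g : H →* H.map (QuotientGroup.mk' N') := (QuotientGroup.mk' N').subgroupMap H
    have hg : Function.Surjective g := (QuotientGroup.mk' N').subgroupMap_surjective H
    apply isNilpotent_of_cset n _ (g '' T)
    · rw [← MonoidHom.map_closure, hT, ← MonoidHom.range_eq_map, MonoidHom.range_eq_top]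
      exact hg
    · intro x hx
      rw [← image_cset] at hx
      obtain ⟨y, hy, rfl⟩ := hx
      apply Subtype.ext
      have h1 : H.subtype y ∈ N' := hR ⟨y, hy, rfl⟩
      exact (QuotientGroup.eq_one_iff _).2 h1

end Pool.Agent.H342_Gap
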